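import Pool.Agent.Y736.HG9
import Pool.Agent.Y298.CA.All

set_option autoImplicit false

/-! # Expansion along the orbits which escape, at a parameter with a positive Lyapunov exponent -/

namespace Pool.Agent.H58AC

open Set Filter Metric MeasureTheory
open Pool.Agent.TH279.MD Pool.Agent.Y298.SH Pool.Agent.Y298.SH.CD
open Pool.Agent.Y298.CA (VV PC S_ONE S_PA Lyap)

variable {d : ℕ} {C₁ lam : ℝ} {c : ℂ}

theorem VV_le {δ : ℝ} {m n : ℕ} (hmn : m ≤ n) {y : ℂ} (hy : y ∈ VV d δ c n) : y ∈ VV d δ c m :=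
  fun j hj => hy j (hj.trans_le hmn)

theorem VV_shift {δ : ℝ} {m n : ℕ} {y : ℂ} (hy : y ∈ VV d δ c (n + m)) :
    (f d c)^[m] y ∈ VV d δ c n := by
  intro j hj
  rw [← Function.iterate_add_apply]
  exact hy (j + m) (by omega)

/-- long pieces away from the critical point expand -/
theorem free_chunk (h : CEp d C₁ lam c) {δ : ℝ} (hδ : 0 < δ) {R : ℝ} (hR : 4 ≤ R) :
    ∃ m : ℕ, 1 ≤ m ∧ ∀ y, y ∈ VV d δ c m → ‖(f d c)^[m] y‖ ≤ R → 2 ≤ ‖deriv ((f d c)^[m]) y‖ := by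
  obtain ⟨m, hm, H⟩ := h.psi_small hδ hR (ε := 1 / 4) (by norm_num)
  refine ⟨m, hm, fun y hy hyR => ?_⟩
  have h1 := Pool.Agent.Y932.CA.one d δ c m y h.hd hδ hy
  have h2 := H _ hyR
  have h3 : (1 : ℝ) ≤ 1 / 4 * ‖deriv ((f d c)^[m]) y‖ ^ 2 :=
    h1.trans (mul_le_mul_of_nonneg_right h2 (sq_nonneg _))
  nlinarith [norm_nonneg (deriv ((f d c)^[m]) y)]

theorem step_lower (hd : 2 ≤ d) {δ : ℝ} (hδ : 0 < δ) {y : ℂ} (hy : 2 * δ ≤ ‖y‖) :
    min 1 (d * (2 * δ) ^ (d - 1)) ≤ ‖deriv (f d c) y‖ := by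
  rw [deriv_f, norm_mul, norm_pow, Complex.norm_natCast]
  refine (min_le_right _ _).trans ?_
  gcongr

theorem short_lower (hd : 2 ≤ d) {δ : ℝ} (hδ : 0 < δ) (n : ℕ) {y : ℂ} (hy : y ∈ VV d δ c n) :
    (min 1 (d * (2 * δ) ^ (d - 1))) ^ n ≤ ‖deriv ((f d c)^[n]) y‖ := by
  induction n with
  | zero => simp
  | succ n ih =>
    have h1 := ih (VV_le (Nat.le_succ n) hy)
    have h2 := step_lower (c := c) hd hδ (hy n (Nat.lt_succ_self n))
    have hd0 : (0 : ℝ) < d := by exact_mod_cast (by omega : 0 < d)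
    rw [add_comm n 1, deriv_iter_add, Function.iterate_one, norm_mul, add_comm 1 n, pow_succ,
      mul_comm (_ ^ n)]
    exact mul_le_mul h2 h1 (by positivity) (norm_nonneg _)

/-- exponential expansion away from the critical point -/
theorem free_exp (h : CEp d C₁ lam c) {δ : ℝ} (hδ : 0 < δ) {R : ℝ} (hR : 4 ≤ R) :
    ∃ κ l : ℝ, 0 < κ ∧ κ ≤ 1 ∧ 1 < l ∧ ∀ n y, y ∈ VV d δ c n → (∀ j ≤ n, ‖(f d c)^[j] y‖ ≤ R) →
      κ * l ^ n ≤ ‖deriv ((f d c)^[n]) y‖ := by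
  obtain ⟨m, hm, H⟩ := free_chunk h hδ hR
  have hd := h.hd
  have hd0 : (0 : ℝ) < d := by exact_mod_cast (by omega : 0 < d)
  obtain ⟨b, hb⟩ : ∃ b, b = min 1 (d * (2 * δ) ^ (d - 1)) := ⟨_, rfl⟩
  have hb0 : 0 < b := by rw [hb]; positivity
  have hb1 : b ≤ 1 := by rw [hb]; exact min_le_left _ _
  obtain ⟨l, hl⟩ : ∃ l : ℝ, l = (2 : ℝ) ^ ((m : ℝ)⁻¹) := ⟨_, rfl⟩
  have hmR : (0 : ℝ) < m := by exact_mod_cast hm
  have hlm : l ^ m = 2 := by
    rw [hl]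
    exact Real.rpow_inv_natCast_pow (by norm_num) (by omega)
  have hl1 : 1 < l := by
    rw [hl]
    exact Real.one_lt_rpow (by norm_num) (by positivity)
  refine ⟨b ^ m / 2, l, by positivity, ?_, hl1, ?_⟩
  · have : b ^ m ≤ 1 := pow_le_one₀ hb0.le hb1
    linarith
  intro n
  induction n using Nat.strong_induction_on with
  | _ n ih =>
    intro y hy hyR
    rcases lt_or_ge n m with hnm | hnm
    · have h1 := short_lower (c := c) hd hδ n hy
      rw [← hb] at h1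
      have h2 : b ^ m ≤ b ^ n := pow_le_pow_of_le_one hb0.le hb1 hnm.le
      have h3 : l ^ n ≤ 2 := by
        rw [← hlm]
        exact pow_le_pow_right₀ hl1.le hnm.le
      calc b ^ m / 2 * l ^ n ≤ b ^ m / 2 * 2 := by gcongr
        _ = b ^ m := by ring
        _ ≤ _ := h2.trans h1
    · obtain ⟨q, hq⟩ : ∃ q, n = q + m := ⟨n - m, by omega⟩
      subst hq
      have h1 := ih q (by omega) ((f d c)^[m] y) (VV_shift hy) (by
        intro j hj
        rw [← Function.iterate_add_apply]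
        exact hyR (j + m) (by omega))
      have h2 := H y (VV_le (by omega) hy) (hyR m (by omega))
      rw [deriv_iter_add, norm_mul, pow_add, hlm]
      calc b ^ m / 2 * (l ^ q * 2) = (b ^ m / 2 * l ^ q) * 2 := by ring
        _ ≤ _ := mul_le_mul h1 h2 (by norm_num) (norm_nonneg _)

/-- expansion of the first passage near the critical point, uniform in the size of the disc -/
theorem free_unif (h : CEp d C₁ lam c) : ∃ ρ₀ Γ : ℝ, 0 < ρ₀ ∧ 1 ≤ Γ ∧ ∀ δ : ℝ, 0 < δ →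
    2 * δ ≤ ρ₀ → ∀ n y, y ∈ VV d δ c n → ‖(f d c)^[n] y‖ ≤ 2 * δ →
      1 / Γ ≤ ‖deriv ((f d c)^[n]) y‖ := by
  obtain ⟨ρ₀, Γ, hρ, hΓ, H⟩ := h.psi_sum
  refine ⟨ρ₀, Γ + 1, hρ, by linarith, ?_⟩
  intro δ hδ hδ2 n y hy hyn
  have h1 := Pool.Agent.Y932.CA.one d δ c n y h.hd hδ hy
  have h2 := H δ hδ hδ2 (n + 1) _ hyn
  rw [Finset.sum_range_succ] at h2
  have h3 : 0 ≤ ∑ j ∈ Finset.range n, psi d δ c j ((f d c)^[n] y) :=
    Finset.sum_nonneg fun j _ => psi_nonneg hδ _ _ _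
  have h4 : psi d δ c n ((f d c)^[n] y) ≤ Γ + 1 := by linarith
  have h5 : (1 : ℝ) ≤ (Γ + 1) * ‖deriv ((f d c)^[n]) y‖ ^ 2 :=
    h1.trans (mul_le_mul_of_nonneg_right h4 (sq_nonneg _))
  have hG : 0 < Γ + 1 := by linarith
  rw [div_le_iff₀ hG]
  by_contra hcon
  push Not at hcon
  have h6 := norm_nonneg (deriv ((f d c)^[n]) y)
  have h7 : ‖deriv ((f d c)^[n]) y‖ < 1 := by
    by_contra h8
    push Not at h8
    nlinarith
  nlinarith

end Pool.Agent.H58AC
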