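import Pool.Agent.H58AC.A

set_option autoImplicit false

/-! # The gain of a passage near the critical point -/

namespace Pool.Agent.H58AC

open Set Filter Metric MeasureTheory
open Pool.Agent.TH279.MD Pool.Agent.Y298.SH Pool.Agent.Y298.SH.CD
open Pool.Agent.Y298.CA (VV PC S_ONE S_PA Lyap)

variable {d : ℕ} {χ : ℝ} {c₀ : ℂ}

/-- **The passage near the critical point.** The derivative gained by following the critical orbit
compensates the loss at the critical point, with an arbitrarily large factor. -/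
theorem shadow (hd : 2 ≤ d) (h : Lyap d χ c₀) {G : ℝ} (hG : 1 ≤ G) :
    ∃ δ₀ σ : ℝ, 0 < δ₀ ∧ 1 < σ ∧ ∀ x : ℂ, x ≠ 0 → ‖x‖ ≤ 2 * δ₀ → ∃ k : ℕ,
      (∀ j < k, ‖(f d c₀)^[j + 1] x‖ ≤ 5 / 2) ∧ G * σ ^ (k + 1) ≤ ‖deriv ((f d c₀)^[k + 1]) x‖ := by
  have hdR : (2 : ℝ) ≤ d := by exact_mod_cast hd
  have hχ : 0 < χ := h.1
  obtain ⟨⟨C₁, lam, hc⟩, hlya⟩ := Pool.Agent.Y674.CA.lya d χ c₀ hd h
  obtain ⟨ε, hε⟩ : ∃ ε, ε = χ / (8 * d) := ⟨_, rfl⟩
  have hε0 : 0 < ε := by rw [hε]; positivity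
  have hεd : 4 * d * ε = χ / 2 := by rw [hε]; field_simp; norm_num
  have hεχ : ε ≤ χ / 16 := by
    rw [hε]
    apply div_le_div_of_nonneg_left hχ.le (by norm_num)
    linarith
  obtain ⟨C, hC, H⟩ := hlya ε hε0
  obtain ⟨B, Ca, hPC⟩ := Pool.Agent.Y434.CA.pa d C₁ lam (Real.exp ε) hd hc.C1 hc.lam1
    (by rw [← Real.exp_zero]; exact Real.exp_lt_exp.2 hε0)
  have hB1 : 1 ≤ B := hPC.Ca1.trans hPC.CaB
  have hC0 : 0 < C := by linarith
  have hB0 : 0 < B := by linarith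
  -- constants
  obtain ⟨a, ha⟩ : ∃ a : ℝ, a = d / (4 * C * B) := ⟨_, rfl⟩
  have ha0 : 0 < a := by rw [ha]; positivity
  obtain ⟨b, hb⟩ : ∃ b : ℝ, b = 1 / C := ⟨_, rfl⟩
  have hb0 : 0 < b := by rw [hb]; positivity
  have hb1 : b ≤ 1 := by rw [hb, div_le_one hC0]; exact hC
  obtain ⟨σ, hσ⟩ : ∃ σ : ℝ, σ = Real.exp (χ / (8 * d)) := ⟨_, rfl⟩
  have hσ1 : 1 < σ := by
    rw [hσ, ← Real.exp_zero]
    exact Real.exp_lt_exp.2 (by positivity)
  have hσd : σ ^ (2 * d) = Real.exp (χ / 4) := by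
    rw [hσ, ← Real.exp_nat_mul]
    congr 1
    push_cast
    field_simp
    norm_num
  obtain ⟨K, hK⟩ : ∃ K : ℝ, K = a ^ (2 * d) * (b * Real.exp (-χ)) / (G ^ (2 * d) * Real.exp (χ / 4)) :=
    ⟨_, rfl⟩
  have hK0 : 0 < K := by rw [hK]; positivity
  obtain ⟨δ₀, hδ₀⟩ : ∃ δ₀ : ℝ, δ₀ = min K 1 / 2 := ⟨_, rfl⟩
  have hδ0 : 0 < δ₀ := by rw [hδ₀]; positivity
  have hδ1 : 2 * δ₀ ≤ 1 := by rw [hδ₀]; linarith [min_le_right K 1]
  have hδK : 2 * δ₀ ≤ K := by rw [hδ₀]; linarith [min_le_left K 1]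
  refine ⟨δ₀, σ, hδ0, hσ1, ?_⟩
  intro x hx hxδ
  have hx0 : 0 < ‖x‖ := norm_pos_iff.2 hx
  have hx1 : ‖x‖ ≤ 1 := hxδ.trans hδ1
  obtain ⟨s, hs⟩ : ∃ s, s = 2 * ‖x‖ ^ d := ⟨_, rfl⟩
  have hs0 : 0 < s := by rw [hs]; positivity
  -- the end of the passage
  have hex : ∃ k, ¬ (B * Real.exp ε ^ k * s * Pd d c₀ k ≤ ‖zz d c₀ k‖) := by
    by_contra hcon
    push Not at hcon
    have h1 : Tendsto (fun k : ℕ => Real.exp (χ - ε) ^ k) atTop atTop :=
      tendsto_pow_atTop_atTop_of_one_lt (by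
        rw [← Real.exp_zero]
        exact Real.exp_lt_exp.2 (by linarith))
    obtain ⟨k, hk⟩ := (h1.eventually_gt_atTop (C * (2 / (B * s)))).exists
    have h2 := hcon k
    obtain ⟨h3, -, -⟩ := H k
    have h4 := hc.bd k
    have h5 : 1 ≤ Real.exp ε ^ k := one_le_pow₀ (Real.one_le_exp hε0.le)
    have hP := hc.Pd_pos k
    have h6 : B * s * Pd d c₀ k ≤ 2 := by
      calc B * s * Pd d c₀ k = B * 1 * s * Pd d c₀ k := by ring
        _ ≤ B * Real.exp ε ^ k * s * Pd d c₀ k := by gcongr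
        _ ≤ 2 := h2.trans h4
    have h7 : Real.exp ((χ - ε) * k) = Real.exp (χ - ε) ^ k := by
      rw [← Real.exp_nat_mul]
      congr 1
      ring
    rw [h7] at h3
    have h8 : Pd d c₀ k ≤ 2 / (B * s) := by
      rw [le_div_iff₀ (by positivity)]
      linarith
    have h9 : C * Pd d c₀ k ≤ C * (2 / (B * s)) := by gcongr
    linarith
  classical
  obtain ⟨k, hk⟩ : ∃ k, k = Nat.find hex := ⟨_, rfl⟩
  have hk1 : ¬ (B * Real.exp ε ^ k * s * Pd d c₀ k ≤ ‖zz d c₀ k‖) := by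
    rw [hk]
    exact Nat.find_spec hex
  have hk2 : ∀ j < k, B * Real.exp ε ^ j * s * Pd d c₀ j ≤ ‖zz d c₀ j‖ := by
    intro j hj
    rw [hk] at hj
    by_contra h1
    exact Nat.find_min hex hj h1
  push Not at hk1
  have hfx : f d c₀ x ∈ ball c₀ s := by
    rw [mem_ball, dist_eq_norm]
    have : f d c₀ x - c₀ = x ^ d := by
      unfold f
      ring
    rw [this, norm_pow, hs]
    have : 0 < ‖x‖ ^ d := by positivity
    linarith
  have hpass := hPC.pass c₀ hc c₀ s k hs0 (by rw [sub_self, norm_zero]; exact hs0.le) hk2 _ hfx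
  refine ⟨k, ?_, ?_⟩
  · intro j hj
    obtain ⟨-, -, -, h4⟩ := hpass j hj.le
    have h5 := h4 hj
    rw [Function.iterate_succ_apply]
    have h6 := hc.bd j
    have h7 := norm_add_le ((f d c₀)^[j] (f d c₀ x) - zz d c₀ j) (zz d c₀ j)
    rw [sub_add_cancel] at h7
    linarith
  · obtain ⟨-, h2, -, -⟩ := hpass k le_rfl
    obtain ⟨X, hX⟩ : ∃ X, X = ‖deriv ((f d c₀)^[k + 1]) x‖ := ⟨_, rfl⟩
    have hX1 : Pd d c₀ k / 2 * (d * ‖x‖ ^ (d - 1)) ≤ X := by
      rw [hX, deriv_iter_add, norm_mul, Function.iterate_one, deriv_f, norm_mul, norm_pow,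
        Complex.norm_natCast]
      gcongr
    rw [← hX]
    obtain ⟨-, -, h3⟩ := H k
    have hP := hc.Pd_pos k
    have hzk : 0 < ‖zz d c₀ k‖ := norm_pos_iff.2 (hc.zz_ne k)
    -- lower bound of the derivative at the end of the passage
    have h4 : 1 ≤ C * B * Real.exp (2 * ε * k) * s * Pd d c₀ k := by
      have e1 : Real.exp (2 * ε * k) = Real.exp (ε * k) * Real.exp ε ^ k := by
        rw [← Real.exp_nat_mul, ← Real.exp_add]
        congr 1
        ring
      calc (1 : ℝ) ≤ C * Real.exp (ε * k) * ‖zz d c₀ k‖ := h3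
        _ ≤ C * Real.exp (ε * k) * (B * Real.exp ε ^ k * s * Pd d c₀ k) := by gcongr
        _ = _ := by rw [e1]; ring
    have h5 : a ≤ Real.exp (2 * ε * k) * ‖x‖ * X := by
      have h6 : d * 1 ≤ d * (C * B * Real.exp (2 * ε * k) * s * Pd d c₀ k) := by gcongr
      have h7 : d * (C * B * Real.exp (2 * ε * k) * s * Pd d c₀ k) =
          4 * C * B * (Real.exp (2 * ε * k) * ‖x‖ * (Pd d c₀ k / 2 * (d * ‖x‖ ^ (d - 1)))) := by
        have e2 : ‖x‖ ^ d = ‖x‖ * ‖x‖ ^ (d - 1) := by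
          rw [← pow_succ']
          congr 1
          omega
        rw [hs, e2]
        ring
      rw [ha, div_le_iff₀ (by positivity)]
      calc (d : ℝ) = d * 1 := (mul_one _).symm
        _ ≤ 4 * C * B * (Real.exp (2 * ε * k) * ‖x‖ * (Pd d c₀ k / 2 * (d * ‖x‖ ^ (d - 1)))) := by
            rw [← h7]; exact h6
        _ ≤ 4 * C * B * (Real.exp (2 * ε * k) * ‖x‖ * X) := by gcongr
        _ = _ := by ring
    have h6 : b * Real.exp (-χ) * Real.exp ((χ - ε) * k) * ‖x‖ ^ d ≤ 1 := by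
      rcases Nat.eq_zero_or_pos k with h0 | h0
      · rw [h0]
        simp only [Nat.cast_zero, mul_zero, Real.exp_zero, mul_one]
        have e3 : Real.exp (-χ) ≤ 1 := Real.exp_le_one_iff.2 (by linarith)
        have e4 : ‖x‖ ^ d ≤ 1 := pow_le_one₀ hx0.le hx1
        calc b * Real.exp (-χ) * ‖x‖ ^ d ≤ 1 * 1 * 1 := by gcongr
          _ = 1 := by norm_num
      · obtain ⟨j, hj⟩ : ∃ j, k = j + 1 := ⟨k - 1, by omega⟩
        have h7 := hk2 j (by omega)
        obtain ⟨h8, -, -⟩ := H j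
        have h9 := hc.bd j
        have hPj := hc.Pd_pos j
        have h10 : 1 ≤ Real.exp ε ^ j := one_le_pow₀ (Real.one_le_exp hε0.le)
        have h11 : ‖x‖ ^ d * Pd d c₀ j ≤ 1 := by
          have : 1 * 1 * (2 * ‖x‖ ^ d) * Pd d c₀ j ≤ B * Real.exp ε ^ j * s * Pd d c₀ j := by
            rw [hs]
            gcongr
          linarith
        have e5 : Real.exp (-χ) * Real.exp ((χ - ε) * k) ≤ Real.exp ((χ - ε) * j) := by
          rw [← Real.exp_add]
          apply Real.exp_le_exp.2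
          rw [hj]
          push_cast
          nlinarith
        calc b * Real.exp (-χ) * Real.exp ((χ - ε) * k) * ‖x‖ ^ d
            = b * (Real.exp (-χ) * Real.exp ((χ - ε) * k)) * ‖x‖ ^ d := by ring
          _ ≤ b * (C * Pd d c₀ j) * ‖x‖ ^ d :=
              mul_le_mul_of_nonneg_right (mul_le_mul_of_nonneg_left (e5.trans h8) hb0.le)
                (by positivity)
          _ = (b * C) * (‖x‖ ^ d * Pd d c₀ j) := by ring
          _ ≤ 1 * 1 := by
              gcongr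
              rw [hb]
              field_simp
              exact le_rfl
          _ = 1 := by norm_num
    -- comparison of the powers
    have hX0 : 0 ≤ X := by rw [hX]; exact norm_nonneg _
    have h7 : (G * σ ^ (k + 1)) ^ (2 * d) ≤ X ^ (2 * d) := by
      have hxd : 0 < ‖x‖ ^ d := by positivity
      have hxd1 : ‖x‖ ^ d ≤ ‖x‖ := by
        calc ‖x‖ ^ d ≤ ‖x‖ ^ 1 := pow_le_pow_of_le_one hx0.le hx1 (by omega)
          _ = ‖x‖ := pow_one _
      have h8 : a ^ (2 * d) ≤ Real.exp (χ / 2 * k) * (‖x‖ ^ d * ‖x‖ ^ d) * X ^ (2 * d) := by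
        have e6 : Real.exp (2 * ε * k) ^ (2 * d) = Real.exp (χ / 2 * k) := by
          rw [← Real.exp_nat_mul, ← hεd]
          congr 1
          push_cast
          ring
        have e7 : ‖x‖ ^ (2 * d) = ‖x‖ ^ d * ‖x‖ ^ d := by rw [← pow_add]; congr 1; ring
        calc a ^ (2 * d) ≤ (Real.exp (2 * ε * k) * ‖x‖ * X) ^ (2 * d) :=
              pow_le_pow_left₀ ha0.le h5 _
          _ = _ := by rw [mul_pow, mul_pow, e6, e7]
      have h9 : G ^ (2 * d) * Real.exp (χ / 4) * ‖x‖ ^ d ≤ a ^ (2 * d) * (b * Real.exp (-χ)) := by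
        have h10 : ‖x‖ ^ d ≤ K := hxd1.trans (hxδ.trans hδK)
        rw [hK, le_div_iff₀ (by positivity)] at h10
        linarith
      have h10 : Real.exp (χ / 4 * k) ≤ Real.exp ((χ - ε) * k) * Real.exp (-(χ / 2 * k)) := by
        rw [← Real.exp_add]
        apply Real.exp_le_exp.2
        have : (0 : ℝ) ≤ k := Nat.cast_nonneg k
        nlinarith
      have h11 : Real.exp (-(χ / 2 * k)) * Real.exp (χ / 2 * k) = 1 := by
        rw [← Real.exp_add]
        simp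
      have e8 : (G * σ ^ (k + 1)) ^ (2 * d) =
          (G ^ (2 * d) * Real.exp (χ / 4)) * Real.exp (χ / 4 * k) := by
        have e9 : σ ^ ((k + 1) * (2 * d)) = Real.exp (χ / 4) * Real.exp (χ / 4 * k) := by
          rw [mul_comm (k + 1), pow_mul, hσd, pow_succ, ← Real.exp_nat_mul]
          have : (k : ℝ) * (χ / 4) = χ / 4 * k := by ring
          rw [this]
          ring
        rw [mul_pow, ← pow_mul, e9]
        ring
      rw [e8]
      have hXX : 0 ≤ X ^ (2 * d) := by positivity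
      have h12 : (G ^ (2 * d) * Real.exp (χ / 4)) * Real.exp (χ / 4 * k) * ‖x‖ ^ d ≤
          X ^ (2 * d) * ‖x‖ ^ d := by
        calc (G ^ (2 * d) * Real.exp (χ / 4)) * Real.exp (χ / 4 * k) * ‖x‖ ^ d
            = (G ^ (2 * d) * Real.exp (χ / 4) * ‖x‖ ^ d) * Real.exp (χ / 4 * k) := by ring
          _ ≤ (a ^ (2 * d) * (b * Real.exp (-χ))) *
              (Real.exp ((χ - ε) * k) * Real.exp (-(χ / 2 * k))) := by gcongr
          _ ≤ ((Real.exp (χ / 2 * k) * (‖x‖ ^ d * ‖x‖ ^ d) * X ^ (2 * d)) * (b * Real.exp (-χ))) *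
              (Real.exp ((χ - ε) * k) * Real.exp (-(χ / 2 * k))) := by gcongr
          _ = (Real.exp (-(χ / 2 * k)) * Real.exp (χ / 2 * k)) *
              (b * Real.exp (-χ) * Real.exp ((χ - ε) * k) * ‖x‖ ^ d) * (X ^ (2 * d) * ‖x‖ ^ d) := by
              ring
          _ ≤ 1 * 1 * (X ^ (2 * d) * ‖x‖ ^ d) := by
              rw [h11]
              gcongr
          _ = _ := by ring
      exact le_of_mul_le_mul_right h12 hxd
    exact le_of_pow_le_pow_left₀ (by omega) hX0 h7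

end Pool.Agent.H58AC
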