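import Pool.Agent.H58AC.B

set_option autoImplicit false

/-! # Exponential expansion along the orbits which escape -/

namespace Pool.Agent.H58AC

open Set Filter Metric MeasureTheory
open Pool.Agent.TH279.MD Pool.Agent.Y298.SH Pool.Agent.Y298.SH.CD
open Pool.Agent.Y298.CA (VV PC S_ONE S_PA Lyap)

variable {d : ℕ} {χ : ℝ} {c₀ : ℂ}

theorem choose_lam {κ l σ : ℝ} (hκ0 : 0 < κ) (hl : 1 < l) (hσ : 1 < σ) :
    ∃ m : ℝ, 1 < m ∧ m ≤ l ∧ m ≤ σ ∧ ∀ (t : ℕ) (D g : ℝ), 0 ≤ g → g ≤ D → κ * l ^ t ≤ D → g ≤ 1 →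
      g * m ^ t ≤ 2 * D := by
  obtain ⟨u, hu⟩ : ∃ u, u = √l := ⟨_, rfl⟩
  have hu1 : 1 < u := by
    rw [hu]
    rw [Real.lt_sqrt (by norm_num)]
    linarith
  have huu : u * u = l := by
    rw [hu]
    exact Real.mul_self_sqrt (by linarith)
  obtain ⟨T, hT⟩ := pow_unbounded_of_one_lt (1 / κ) hu1
  obtain ⟨v, hv⟩ : ∃ v : ℝ, v = (2 : ℝ) ^ (((T + 1 : ℕ) : ℝ)⁻¹) := ⟨_, rfl⟩
  have hvT : v ^ (T + 1) = 2 := by
    rw [hv]
    exact Real.rpow_inv_natCast_pow (by norm_num) (by omega)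
  have hv1 : 1 < v := by
    rw [hv]
    exact Real.one_lt_rpow (by norm_num) (by positivity)
  refine ⟨min (min u σ) v, lt_min (lt_min hu1 hσ) hv1, ?_, ?_, ?_⟩
  · refine (min_le_left _ _).trans ((min_le_left _ _).trans ?_)
    nlinarith
  · exact (min_le_left _ _).trans (min_le_right _ _)
  intro t D g hg0 hg hD hg1
  have hm0 : 0 ≤ min (min u σ) v := by
    have := lt_min (lt_min hu1 hσ) hv1
    linarith
  rcases lt_or_ge t T with h1 | h1
  · have h2 : (min (min u σ) v) ^ t ≤ 2 := by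
      calc (min (min u σ) v) ^ t ≤ v ^ t := pow_le_pow_left₀ hm0 (min_le_right _ _) _
        _ ≤ v ^ (T + 1) := pow_le_pow_right₀ hv1.le (by omega)
        _ = 2 := hvT
    calc g * (min (min u σ) v) ^ t ≤ D * 2 := by
          have : 0 ≤ D := hg0.trans hg
          gcongr
      _ = 2 * D := by ring
  · have h2 : (min (min u σ) v) ^ t ≤ u ^ t :=
      pow_le_pow_left₀ hm0 ((min_le_left _ _).trans (min_le_left _ _)) _
    have h3 : 1 ≤ κ * u ^ t := by
      have h4 : u ^ T ≤ u ^ t := pow_le_pow_right₀ hu1.le h1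
      have h5 : 1 / κ ≤ u ^ t := hT.le.trans h4
      rw [div_le_iff₀ hκ0] at h5
      linarith
    have h4 : u ^ t ≤ D := by
      calc u ^ t = 1 * u ^ t := (one_mul _).symm
        _ ≤ κ * u ^ t * u ^ t := by gcongr
        _ = κ * l ^ t := by rw [← huu, mul_pow]; ring
        _ ≤ D := hD
    have h5 : 0 ≤ u ^ t := by positivity
    calc g * (min (min u σ) v) ^ t ≤ 1 * u ^ t := by gcongr
      _ ≤ 2 * D := by linarith

/-- **Exponential expansion along the orbits which escape.** -/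
theorem expand (hd : 2 ≤ d) (h : Lyap d χ c₀) {R : ℝ} (hR : 4 ≤ R) :
    ∃ κ l : ℝ, 0 < κ ∧ κ ≤ 1 ∧ 1 < l ∧ ∀ n z, 5 / 2 < ‖(f d c₀)^[n] z‖ →
      (∀ j ≤ n, ‖(f d c₀)^[j] z‖ ≤ R) → κ * l ^ n ≤ ‖deriv ((f d c₀)^[n]) z‖ := by
  obtain ⟨⟨C₁, lam, hc⟩, -⟩ := Pool.Agent.Y674.CA.lya d χ c₀ hd h
  obtain ⟨ρ₀, Γ, hρ₀, hΓ, HU⟩ := free_unif hc
  obtain ⟨δ₀, σ, hδ₀, hσ, HS⟩ := shadow hd h (G := 2 * Γ) (by linarith)
  obtain ⟨δ, hδ⟩ : ∃ δ, δ = min δ₀ (ρ₀ / 2) := ⟨_, rfl⟩
  have hδ0 : 0 < δ := by rw [hδ]; positivity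
  have hδ1 : δ ≤ δ₀ := by rw [hδ]; exact min_le_left _ _
  have hδ2 : 2 * δ ≤ ρ₀ := by
    have : δ ≤ ρ₀ / 2 := by rw [hδ]; exact min_le_right _ _
    linarith
  obtain ⟨κ, l₁, hκ0, hκ1, hl₁, HF⟩ := free_exp hc hδ0 hR
  obtain ⟨l, hl1, hll, hlσ, HL⟩ := choose_lam hκ0 hl₁ hσ
  refine ⟨κ, l, hκ0, hκ1, hl1, ?_⟩
  have hl0 : 0 < l := by linarith
  intro n
  induction n using Nat.strong_induction_on with
  | _ n ih =>
    intro z hz hzR
    by_cases hfree : z ∈ VV d δ c₀ n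
    · refine le_trans ?_ (HF n z hfree hzR)
      gcongr
    · have hex : ∃ t, t < n ∧ ‖(f d c₀)^[t] z‖ < 2 * δ := by
        by_contra hcon
        push Not at hcon
        exact hfree hcon
      classical
      obtain ⟨t, ht⟩ : ∃ t, t = Nat.find hex := ⟨_, rfl⟩
      have ht1 : t < n ∧ ‖(f d c₀)^[t] z‖ < 2 * δ := by
        rw [ht]
        exact Nat.find_spec hex
      have ht2 : z ∈ VV d δ c₀ t := by
        intro j hj
        rw [ht] at hj
        by_contra h1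
        push Not at h1
        exact Nat.find_min hex hj ⟨by rw [← ht] at hj; omega, h1⟩
      obtain ⟨x, hx⟩ : ∃ x, x = (f d c₀)^[t] z := ⟨_, rfl⟩
      rw [← hx] at ht1
      have hx0 : x ≠ 0 := by
        intro h0
        obtain ⟨q, hq⟩ : ∃ q, n = q + 1 + t := ⟨n - t - 1, by omega⟩
        rw [hq, Function.iterate_add_apply, ← hx, h0, Function.iterate_succ_apply] at hz
        have h1 : f d c₀ 0 = c₀ := by
          unfold f
          rw [zero_pow (by omega), zero_add]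
        rw [h1] at hz
        have h2 := hc.bd q
        unfold zz at h2
        linarith
      obtain ⟨k, hk1, hk2⟩ := HS x hx0 (by linarith [ht1.2])
      -- the passage ends before the escape
      have hn : t + k + 1 ≤ n := by
        by_contra hcon
        push Not at hcon
        obtain ⟨j, hj⟩ : ∃ j, n = j + 1 + t := ⟨n - t - 1, by omega⟩
        have h1 := hk1 j (by omega)
        rw [hx, ← Function.iterate_add_apply, ← hj] at h1
        linarith
      obtain ⟨q, hq⟩ : ∃ q, n = q + ((k + 1) + t) := ⟨n - (k + 1 + t), by omega⟩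
      have e1 : (f d c₀)^[(k + 1) + t] z = (f d c₀)^[k + 1] x := by
        rw [Function.iterate_add_apply, ← hx]
      have h1 := ih q (by omega) ((f d c₀)^[(k + 1) + t] z) (by
        rw [← Function.iterate_add_apply, ← hq]
        exact hz) (by
        intro j hj
        rw [← Function.iterate_add_apply]
        exact hzR _ (by omega))
      have h2 : 1 / Γ ≤ ‖deriv ((f d c₀)^[t]) z‖ := HU δ hδ0 hδ2 t z ht2 (by
        rw [← hx]
        exact ht1.2.le)
      have h3 := HF t z ht2 (fun j hj => hzR j (by omega))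
      have hΓ0 : 0 < Γ := by linarith
      have h4 := HL t _ (1 / Γ) (by positivity) h2 h3 (by
        rw [div_le_one hΓ0]
        exact hΓ)
      rw [hq, deriv_iter_add, norm_mul, deriv_iter_add d c₀ (k + 1) t, norm_mul, ← hx]
      have h5 : l ^ (k + 1) ≤ σ ^ (k + 1) := pow_le_pow_left₀ hl0.le hlσ _
      have hD0 : 0 ≤ ‖deriv ((f d c₀)^[t]) z‖ := norm_nonneg _
      have h6 : l ^ ((k + 1) + t) ≤ ‖deriv ((f d c₀)^[k + 1]) x‖ * ‖deriv ((f d c₀)^[t]) z‖ := by
        calc l ^ ((k + 1) + t) = (l ^ (k + 1) * Γ) * (1 / Γ * l ^ t) := by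
              rw [pow_add]
              field_simp
          _ ≤ (σ ^ (k + 1) * Γ) * (2 * ‖deriv ((f d c₀)^[t]) z‖) := by gcongr
          _ = (2 * Γ * σ ^ (k + 1)) * ‖deriv ((f d c₀)^[t]) z‖ := by ring
          _ ≤ _ := by gcongr
      rw [pow_add l q]
      calc κ * (l ^ q * l ^ ((k + 1) + t)) = (κ * l ^ q) * l ^ ((k + 1) + t) := by ring
        _ ≤ _ := mul_le_mul h1 h6 (by positivity) (norm_nonneg _)

end Pool.Agent.H58AC
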