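import Pool.Agent.H58AC.C

set_option autoImplicit false

/-! # Growth of the derivative in the parameter up to the escape -/

namespace Pool.Agent.H58AC

open Set Filter Metric MeasureTheory
open Pool.Agent.TH279.MD Pool.Agent.Y298.SH Pool.Agent.Y298.SH.CD
open Pool.Agent.Y298.CA (VV PC S_ONE S_PA Lyap)
open Pool.Agent.H712R2 (P P_succ P_one mem_multibrot_iff)
open Pool.Agent.H713R2 (differentiable_P)

variable {d : ℕ} {χ : ℝ} {c₀ : ℂ}

/-- the Lipschitz constant -/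
noncomputable def La (d : ℕ) (R : ℝ) : ℝ := 2 * d * (R + 1) ^ d

theorem La_ge (hd : 2 ≤ d) {R : ℝ} (hR : 4 ≤ R) : d * (R + 1) ^ (d - 1) + 1 ≤ La d R ∧ 2 ≤ La d R := by
  have hdR : (2 : ℝ) ≤ d := by exact_mod_cast hd
  have h1 : (1 : ℝ) ≤ (R + 1) ^ (d - 1) := one_le_pow₀ (by linarith)
  have h2 : (R + 1) ^ (d - 1) ≤ (R + 1) ^ d := pow_le_pow_right₀ (by linarith) (by omega)
  unfold La
  constructor
  · nlinarith
  · nlinarith

/-- closeness of the orbits for nearby parameters -/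
theorem pert (hd : 2 ≤ d) {R : ℝ} (hR : 4 ≤ R) {p c q : ℂ} {s : ℝ} (hs : 0 ≤ s) (hpc : ‖p - c‖ ≤ s)
    {N : ℕ} (hN : s * La d R ^ N ≤ 1) (hq : ∀ j ≤ N, ‖(f d p)^[j] q‖ ≤ R) :
    ∀ j ≤ N, ‖(f d p)^[j] q - (f d c)^[j] q‖ ≤ s * La d R ^ j ∧ ‖(f d c)^[j] q‖ ≤ R + 1 := by
  obtain ⟨hL1, hL2⟩ := La_ge hd hR
  have hL0 : 0 < La d R := by linarith
  have hfd : ∀ c x : ℂ, f d c x = x ^ d + c := fun c x => rfl
  have hpow : ∀ j ≤ N, s * La d R ^ j ≤ 1 := fun j hj =>
    (mul_le_mul_of_nonneg_left (pow_le_pow_right₀ (by linarith) hj) hs).trans hN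
  have key : ∀ j ≤ N, ‖(f d p)^[j] q - (f d c)^[j] q‖ ≤ s * La d R ^ j → ‖(f d c)^[j] q‖ ≤ R + 1 := by
    intro j hj h1
    have h2 := norm_sub_le ((f d p)^[j] q) ((f d p)^[j] q - (f d c)^[j] q)
    rw [sub_sub_cancel] at h2
    have h3 := hq j hj
    have h4 := hpow j hj
    linarith
  intro j
  induction j with
  | zero =>
    intro hj
    have h1 : ‖(f d p)^[0] q - (f d c)^[0] q‖ ≤ s * La d R ^ 0 := by
      simp only [Function.iterate_zero, id_eq, sub_self, norm_zero, pow_zero, mul_one]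
      exact hs
    exact ⟨h1, key 0 hj h1⟩
  | succ j ih =>
    intro hj
    obtain ⟨h1, h2⟩ := ih (by omega)
    have h3 : ‖(f d p)^[j + 1] q - (f d c)^[j + 1] q‖ ≤ s * La d R ^ (j + 1) := by
      rw [Function.iterate_succ_apply', Function.iterate_succ_apply', hfd, hfd]
      have h4 := pow_sub_le ((f d p)^[j] q) ((f d c)^[j] q) (m := R + 1)
        ((hq j (by omega)).trans (by linarith)) h2 d
      have h5 : ((f d p)^[j] q) ^ d + p - (((f d c)^[j] q) ^ d + c) =
          (((f d p)^[j] q) ^ d - ((f d c)^[j] q) ^ d) + (p - c) := by ring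
      have h6 : (1 : ℝ) ≤ La d R ^ j := one_le_pow₀ (by linarith)
      calc ‖((f d p)^[j] q) ^ d + p - (((f d c)^[j] q) ^ d + c)‖
          ≤ d * (R + 1) ^ (d - 1) * ‖(f d p)^[j] q - (f d c)^[j] q‖ + s := by
            rw [h5]
            exact (norm_add_le _ _).trans (add_le_add h4 hpc)
        _ ≤ d * (R + 1) ^ (d - 1) * (s * La d R ^ j) + s * La d R ^ j := by
            have h7 : 0 ≤ d * (R + 1) ^ (d - 1) := by positivity
            have h8 : s ≤ s * La d R ^ j := le_mul_of_one_le_right hs h6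
            gcongr
        _ = (d * (R + 1) ^ (d - 1) + 1) * (s * La d R ^ j) := by ring
        _ ≤ La d R * (s * La d R ^ j) := by gcongr
        _ = _ := by rw [pow_succ]; ring
    exact ⟨h3, key (j + 1) hj h3⟩

/-- bound of the derivatives -/
theorem der_le (hd : 2 ≤ d) {R : ℝ} (hR : 4 ≤ R) {c q : ℂ} {N : ℕ}
    (hq : ∀ j < N, ‖(f d c)^[j] q‖ ≤ R + 1) : ‖deriv ((f d c)^[N]) q‖ ≤ La d R ^ N := by
  obtain ⟨hL1, hL2⟩ := La_ge hd hR
  induction N with
  | zero => simp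
  | succ N ih =>
    have h1 := ih (fun j hj => hq j (by omega))
    rw [add_comm N 1, deriv_iter_add, Function.iterate_one, deriv_f, norm_mul, norm_mul, norm_pow,
      Complex.norm_natCast, add_comm 1 N, pow_succ']
    have h2 := hq N (Nat.lt_succ_self N)
    apply mul_le_mul _ h1 (norm_nonneg _) (by linarith)
    calc (d : ℝ) * ‖(f d c)^[N] q‖ ^ (d - 1) ≤ d * (R + 1) ^ (d - 1) := by gcongr
      _ ≤ La d R := by linarith

/-- closeness of the derivatives for nearby parameters -/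
theorem pert_der (hd : 2 ≤ d) {R : ℝ} (hR : 4 ≤ R) {p c q : ℂ} {s : ℝ} (hs : 0 ≤ s)
    (hpc : ‖p - c‖ ≤ s) {N : ℕ} (hN : s * La d R ^ N ≤ 1) (hq : ∀ j ≤ N, ‖(f d p)^[j] q‖ ≤ R) :
    ∀ j ≤ N, ‖deriv ((f d p)^[j]) q - deriv ((f d c)^[j]) q‖ ≤ d * s * La d R ^ (2 * j + 1) := by
  obtain ⟨hL1, hL2⟩ := La_ge hd hR
  have hdR : (2 : ℝ) ≤ d := by exact_mod_cast hd
  have hL0 : 0 < La d R := by linarith
  have hP := pert hd hR hs hpc hN hq
  intro j
  induction j with
  | zero =>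
    intro _
    simp only [Function.iterate_zero, sub_self, norm_zero]
    positivity
  | succ j ih =>
    intro hj
    have h1 := ih (by omega)
    obtain ⟨h2, h3⟩ := hP j (by omega)
    have hB : ‖deriv ((f d c)^[j]) q‖ ≤ La d R ^ j :=
      der_le hd hR (fun i hi => (hP i (by omega)).2)
    obtain ⟨x, hx⟩ : ∃ x, x = (f d p)^[j] q := ⟨_, rfl⟩
    obtain ⟨y, hy⟩ : ∃ y, y = (f d c)^[j] q := ⟨_, rfl⟩
    obtain ⟨A, hA⟩ : ∃ A, A = deriv ((f d p)^[j]) q := ⟨_, rfl⟩
    obtain ⟨B, hB'⟩ : ∃ B, B = deriv ((f d c)^[j]) q := ⟨_, rfl⟩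
    have hxR : ‖x‖ ≤ R + 1 := by
      rw [hx]
      exact (hq j (by omega)).trans (by linarith)
    rw [add_comm j 1, deriv_iter_add, deriv_iter_add, Function.iterate_one, Function.iterate_one,
      deriv_f, deriv_f, ← hx, ← hy, ← hA, ← hB']
    rw [← hx, ← hy] at h2
    rw [← hy] at h3
    rw [← hB'] at hB
    rw [← hA, ← hB'] at h1
    have e1 : (d : ℂ) * x ^ (d - 1) * A - d * y ^ (d - 1) * B =
        d * x ^ (d - 1) * (A - B) + d * (x ^ (d - 1) - y ^ (d - 1)) * B := by ring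
    have h4 := pow_sub_le x y (m := R + 1) hxR h3 (d - 1)
    have h5 : ((d - 1 : ℕ) : ℝ) * (R + 1) ^ (d - 1 - 1) ≤ La d R := by
      have e2 : ((d - 1 : ℕ) : ℝ) ≤ d := by exact_mod_cast Nat.sub_le d 1
      have e3 : (R + 1) ^ (d - 1 - 1) ≤ (R + 1) ^ (d - 1) :=
        pow_le_pow_right₀ (by linarith) (by omega)
      calc ((d - 1 : ℕ) : ℝ) * (R + 1) ^ (d - 1 - 1) ≤ d * (R + 1) ^ (d - 1) := by gcongr
        _ ≤ La d R := by linarith
    have h6 : ‖(d : ℂ) * x ^ (d - 1)‖ ≤ La d R - 1 := by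
      rw [norm_mul, norm_pow, Complex.norm_natCast]
      calc (d : ℝ) * ‖x‖ ^ (d - 1) ≤ d * (R + 1) ^ (d - 1) := by gcongr
        _ ≤ La d R - 1 := by linarith
    have h7 : ‖(d : ℂ) * (x ^ (d - 1) - y ^ (d - 1)) * B‖ ≤ d * (La d R * (s * La d R ^ j)) * La d R ^ j := by
      rw [norm_mul, norm_mul, Complex.norm_natCast]
      have : ‖x ^ (d - 1) - y ^ (d - 1)‖ ≤ La d R * (s * La d R ^ j) := by
        refine h4.trans ?_
        gcongr
      gcongr
    rw [e1]
    refine (norm_add_le _ _).trans ?_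
    rw [norm_mul]
    have h8 : 0 ≤ La d R - 1 := by linarith
    calc ‖(d : ℂ) * x ^ (d - 1)‖ * ‖A - B‖ + ‖(d : ℂ) * (x ^ (d - 1) - y ^ (d - 1)) * B‖
        ≤ (La d R - 1) * (d * s * La d R ^ (2 * j + 1)) + d * (La d R * (s * La d R ^ j)) * La d R ^ j := by
          gcongr
      _ = d * s * La d R ^ (2 * j + 1) * (La d R - 1 + 1) := by
          rw [show 2 * j + 1 = j + j + 1 by ring, pow_succ, pow_add]
          ring
      _ ≤ d * s * La d R ^ (2 * j + 1) * (La d R * La d R) := by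
          gcongr
          nlinarith
      _ = d * s * La d R ^ (2 * (1 + j) + 1) := by
          rw [show 2 * (1 + j) + 1 = 2 * j + 1 + 1 + 1 by ring, pow_succ _ (2 * j + 1 + 1), pow_succ _ (2 * j + 1)]
          ring

/-- the recursion of the critical orbit -/
theorem P_add (hd : 2 ≤ d) (k j : ℕ) (c : ℂ) : P d (k + 1 + j) c = (f d c)^[j] (P d (k + 1) c) := by
  induction j with
  | zero => rfl
  | succ j ih => rw [← add_assoc, P_succ, ih, Function.iterate_succ_apply']; rfl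

/-- the derivative of the critical orbit: splitting -/
theorem P_der_add (hd : 2 ≤ d) {R : ℝ} (hR : 4 ≤ R) (k N : ℕ) {p : ℂ}
    (hq : ∀ j < N, ‖P d (k + 1 + j) p‖ ≤ R) :
    ‖deriv (P d (k + 1 + N)) p - deriv ((f d p)^[N]) (P d (k + 1) p) * deriv (P d (k + 1)) p‖ ≤
      La d R ^ N := by
  obtain ⟨hL1, hL2⟩ := La_ge hd hR
  induction N with
  | zero =>
    simp
  | succ N ih =>
    have h1 := ih (fun j hj => hq j (by omega))
    have h2 : deriv (P d (k + 1 + N + 1)) p =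
        d * (P d (k + 1 + N) p) ^ (d - 1) * deriv (P d (k + 1 + N)) p + 1 := by
      have e1 : P d (k + 1 + N + 1) = fun c => (P d (k + 1 + N) c) ^ d + c := by
        funext c
        exact P_succ d _ c
      rw [e1]
      have h3 := ((differentiable_P d (k + 1 + N) p).hasDerivAt.pow d).add (hasDerivAt_id p)
      exact h3.deriv
    have h4 : deriv ((f d p)^[N + 1]) (P d (k + 1) p) =
        d * (P d (k + 1 + N) p) ^ (d - 1) * deriv ((f d p)^[N]) (P d (k + 1) p) := by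
      rw [add_comm N 1, deriv_iter_add, Function.iterate_one, deriv_f, ← P_add hd]
    rw [← add_assoc, h2, h4]
    have e2 : (d : ℂ) * (P d (k + 1 + N) p) ^ (d - 1) * deriv (P d (k + 1 + N)) p + 1 -
        d * (P d (k + 1 + N) p) ^ (d - 1) * deriv ((f d p)^[N]) (P d (k + 1) p) *
          deriv (P d (k + 1)) p = d * (P d (k + 1 + N) p) ^ (d - 1) *
        (deriv (P d (k + 1 + N)) p - deriv ((f d p)^[N]) (P d (k + 1) p) *
          deriv (P d (k + 1)) p) + 1 := by ring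
    rw [e2]
    have h5 : ‖(d : ℂ) * (P d (k + 1 + N) p) ^ (d - 1)‖ ≤ La d R - 1 := by
      rw [norm_mul, norm_pow, Complex.norm_natCast]
      have h6 := hq N (Nat.lt_succ_self N)
      calc (d : ℝ) * ‖P d (k + 1 + N) p‖ ^ (d - 1) ≤ d * (R + 1) ^ (d - 1) := by
            gcongr
            linarith
        _ ≤ La d R - 1 := by linarith
    have h6 : (1 : ℝ) ≤ La d R ^ N := one_le_pow₀ (by linarith)
    refine (norm_add_le _ _).trans ?_
    rw [norm_mul, norm_one]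
    have h8 : 0 ≤ La d R - 1 := by linarith
    calc _ ≤ (La d R - 1) * La d R ^ N + La d R ^ N := by gcongr
      _ = La d R ^ (N + 1) := by rw [pow_succ]; ring

end Pool.Agent.H58AC
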