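import Pool.Agent.H58AC.D

set_option autoImplicit false

/-! # The derivative in the parameter near a parameter with a positive Lyapunov exponent -/

namespace Pool.Agent.H58AC

open Set Filter Metric MeasureTheory
open Pool.Agent.TH279.MD Pool.Agent.Y298.SH Pool.Agent.Y298.SH.CD
open Pool.Agent.Y298.CA (VV PC S_ONE S_PA Lyap)
open Pool.Agent.H712R2 (P P_succ P_one mem_multibrot_iff)
open Pool.Agent.H713R2 (differentiable_P)

variable {d : ℕ} {χ : ℝ} {c₀ : ℂ}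

/-- **The passage in the parameter plane.** -/
theorem pass_par (hd : 2 ≤ d) (h : Lyap d χ c₀) {ε : ℝ} (hε0 : 0 < ε) :
    ∃ C D κ : ℝ, ∃ K₀ : ℕ, 1 ≤ C ∧ 1 ≤ D ∧ 0 < κ ∧ ∀ k : ℕ, ∀ p : ℂ,
      ‖p - c₀‖ ≤ Real.exp (-((χ + 3 * ε) * k)) / D →
      (K₀ ≤ k → κ * Real.exp ((χ - ε) * k) ≤ ‖deriv (P d (k + 1)) p‖) ∧
      ∀ j ≤ k, ‖deriv (P d (j + 1)) p‖ ≤ C * Real.exp ((χ + ε) * k) := by
  have hdR : (2 : ℝ) ≤ d := by exact_mod_cast hd
  have hχ : 0 < χ := h.1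
  obtain ⟨⟨C₁, lam, hc⟩, hlya⟩ := Pool.Agent.Y674.CA.lya d χ c₀ hd h
  obtain ⟨C, hC, H⟩ := hlya ε hε0
  obtain ⟨B, Ca, hPC⟩ := Pool.Agent.Y434.CA.pa d C₁ lam (Real.exp ε) hd hc.C1 hc.lam1
    (by rw [← Real.exp_zero]; exact Real.exp_lt_exp.2 hε0)
  have hB1 : 1 ≤ B := hPC.Ca1.trans hPC.CaB
  have hC0 : 0 < C := by linarith
  have hB0 : 0 < B := by linarith
  have hC₁ := hc.C1
  have hl := hc.lam1
  have hl0 : 0 < lam := by linarith
  obtain ⟨κ₀, ε', J, hκ₀, hε', hgrow⟩ := hc.grow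
  obtain ⟨D, hD⟩ : ∃ D, D = B * C ^ 2 := ⟨_, rfl⟩
  have hD1 : 1 ≤ D := by
    rw [hD]
    have : 1 ≤ C ^ 2 := one_le_pow₀ hC
    nlinarith
  have hD0 : 0 < D := by linarith
  obtain ⟨K₁, hK₁⟩ : ∃ K₁ : ℕ, ∀ k : ℕ, K₁ ≤ k → Real.exp (-((χ + 3 * ε) * k)) ≤ ε' := by
    have h1 : Tendsto (fun k : ℕ => Real.exp (-((χ + 3 * ε) * k))) atTop (nhds 0) := by
      apply Real.tendsto_exp_neg_atTop_nhds_zero.comp
      exact tendsto_natCast_atTop_atTop.const_mul_atTop (by positivity)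
    obtain ⟨K₁, hK₁⟩ := eventually_atTop.1 (h1.eventually (ge_mem_nhds hε'))
    exact ⟨K₁, hK₁⟩
  have hil : 0 < 1 / lam := by positivity
  have hil1 : 1 / lam < 1 := by rw [div_lt_one hl0]; exact hl
  obtain ⟨SP, hSP⟩ : ∃ SP, SP = C₁ * (1 - 1 / lam)⁻¹ := ⟨_, rfl⟩
  have hSP0 : 0 ≤ SP := by
    rw [hSP]
    have : 0 < 1 - 1 / lam := by linarith
    positivity
  refine ⟨4 * (SP + 1) * C, D, κ₀ / C, max J K₁, ?_, hD1, by positivity, ?_⟩
  · nlinarith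
  intro k p hp
  obtain ⟨s, hs⟩ : ∃ s, s = Real.exp (-((χ + 3 * ε) * k)) / D := ⟨_, rfl⟩
  have hs0 : 0 < s := by rw [hs]; positivity
  rw [← hs] at hp
  have hDs : D * s = Real.exp (-((χ + 3 * ε) * k)) := by
    rw [hs]
    field_simp
  -- the passage
  have hpass : ∀ j < k, B * Real.exp ε ^ j * s * Pd d c₀ j ≤ ‖zz d c₀ j‖ := by
    intro j hj
    obtain ⟨-, h2, h3⟩ := H j
    have h5 : C * Real.exp (ε * j) * (B * Real.exp ε ^ j * s * Pd d c₀ j) ≤ 1 := by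
      calc C * Real.exp (ε * j) * (B * Real.exp ε ^ j * s * Pd d c₀ j)
          ≤ C * Real.exp (ε * j) * (B * Real.exp ε ^ j * s * (C * Real.exp ((χ + ε) * j))) := by
            gcongr
        _ = D * s * Real.exp ((χ + 3 * ε) * j) := by
            rw [hD, ← Real.exp_nat_mul]
            have e : Real.exp ((χ + 3 * ε) * j) = Real.exp (ε * j) * Real.exp (j * ε) *
                Real.exp ((χ + ε) * j) := by
              rw [← Real.exp_add, ← Real.exp_add]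
              congr 1
              ring
            rw [e]
            ring
        _ ≤ D * s * Real.exp ((χ + 3 * ε) * k) := by
            gcongr
        _ = 1 := by
            rw [hDs, ← Real.exp_add]
            simp
    have h6 := h5.trans h3
    exact le_of_mul_le_mul_left h6 (by positivity)
  have hPC' := hPC.pass c₀ hc p s k hs0 hp hpass p (mem_ball_self hs0)
  have hder : ∀ j ≤ k, Pd d c₀ j / 2 ≤ ‖deriv ((f d p)^[j]) p‖ := fun j hj => (hPC' j hj).2.1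
  refine ⟨?_, ?_⟩
  · intro hk
    have h1 := hgrow c₀ hc p (by
      refine hp.trans ?_
      have h2 := hK₁ k (le_of_max_le_right hk)
      have h3 : s ≤ D * s := by nlinarith
      linarith [hDs]) k (le_of_max_le_left hk) hder
    refine le_trans ?_ h1
    obtain ⟨h2, -, -⟩ := H k
    rw [div_mul_eq_mul_div, div_le_iff₀ hC0]
    calc κ₀ * Real.exp ((χ - ε) * k) ≤ κ₀ * (C * Pd d c₀ k) := by gcongr
      _ = _ := by ring
  · intro j hj
    have hne : ∀ i ≤ j, deriv ((f d p)^[i]) p ≠ 0 := by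
      intro i hi
      have h1 := hder i (by omega)
      have h2 := hc.Pd_pos i
      rw [← norm_pos_iff]
      linarith
    have h1 := (der_sum d hd p j hne).deriv
    rw [P_succ_eq hd, h1, norm_mul]
    have h2 : ‖deriv ((f d p)^[j]) p‖ ≤ 2 * Pd d c₀ j := (hPC' j hj).2.2.1
    have h3 : ‖∑ i ∈ Finset.range (j + 1), (deriv ((f d p)^[i]) p)⁻¹‖ ≤ 2 * SP := by
      refine (norm_sum_le _ _).trans ?_
      have h4 : ∀ i ∈ Finset.range (j + 1), ‖(deriv ((f d p)^[i]) p)⁻¹‖ ≤ 2 * C₁ * (1 / lam) ^ i := by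
        intro i hi
        rw [Finset.mem_range] at hi
        have h5 := hder i (by omega)
        have h6 := hc.Pd_pos i
        have h7 := hc.bb_le i
        rw [norm_bb] at h7
        rw [norm_inv]
        calc ‖deriv ((f d p)^[i]) p‖⁻¹ ≤ (Pd d c₀ i / 2)⁻¹ := inv_anti₀ (by positivity) h5
          _ = 2 * (Pd d c₀ i)⁻¹ := by rw [inv_div]; ring
          _ ≤ 2 * (C₁ * (1 / lam) ^ i) := by gcongr
          _ = _ := by ring
      refine (Finset.sum_le_sum h4).trans ?_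
      rw [← Finset.mul_sum, hSP]
      have h5 : ∑ i ∈ Finset.range (j + 1), (1 / lam) ^ i ≤ (1 - 1 / lam)⁻¹ := by
        rw [← tsum_geometric_of_lt_one hil.le hil1]
        exact (summable_geometric_of_lt_one hil.le hil1).sum_le_tsum _ (fun _ _ => by positivity)
      calc 2 * C₁ * ∑ i ∈ Finset.range (j + 1), (1 / lam) ^ i ≤ 2 * C₁ * (1 - 1 / lam)⁻¹ := by gcongr
        _ = _ := by ring
    obtain ⟨-, h4, -⟩ := H j
    have h5 : Real.exp ((χ + ε) * j) ≤ Real.exp ((χ + ε) * k) := by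
      apply Real.exp_le_exp.2
      gcongr
    have h6 := hc.Pd_pos j
    calc ‖deriv ((f d p)^[j]) p‖ * ‖∑ i ∈ Finset.range (j + 1), (deriv ((f d p)^[i]) p)⁻¹‖
        ≤ (2 * Pd d c₀ j) * (2 * SP) := by gcongr
      _ = 4 * SP * Pd d c₀ j := by ring
      _ ≤ 4 * SP * (C * Real.exp ((χ + ε) * k)) := by
          gcongr
          exact h4.trans (by gcongr)
      _ ≤ 4 * (SP + 1) * (C * Real.exp ((χ + ε) * k)) := by
          gcongr
          linarith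
      _ = _ := by ring

/-- **Growth of the derivative in the parameter up to the escape.** -/
theorem par_low (hd : 2 ≤ d) (h : Lyap d χ c₀) {R : ℝ} (hR : 4 ≤ R) :
    ∃ l η : ℝ, 1 < l ∧ 0 < η ∧ ∀ ε : ℝ, 0 < ε → ε ≤ χ / 2 → ∃ D κ : ℝ, ∃ K₀ : ℕ, 1 ≤ D ∧ 0 < κ ∧
      ∀ k N : ℕ, K₀ ≤ k → (N : ℝ) ≤ η * k → ∀ p : ℂ,
        ‖p - c₀‖ ≤ Real.exp (-((χ + 3 * ε) * k)) / D → 3 < ‖P d (k + 1 + N) p‖ →
        (∀ j ≤ N, ‖P d (k + 1 + j) p‖ ≤ R) →
        κ * (l ^ N * Real.exp ((χ - ε) * k)) ≤ ‖deriv (P d (k + 1 + N)) p‖ := by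
  have hdR : (2 : ℝ) ≤ d := by exact_mod_cast hd
  have hχ : 0 < χ := h.1
  obtain ⟨κ₁, l, hκ₁, hκ₁1, hl, HE⟩ := expand hd h (R := R + 1) (by linarith)
  obtain ⟨hL1, hL2⟩ := La_ge hd hR
  obtain ⟨L, hL⟩ : ∃ L, L = La d R := ⟨_, rfl⟩
  rw [← hL] at hL1 hL2
  have hL0 : 0 < L := by linarith
  have hlogL : 0 < Real.log L := Real.log_pos (by linarith)
  obtain ⟨η, hη⟩ : ∃ η, η = χ / (8 * Real.log L) := ⟨_, rfl⟩
  have hη0 : 0 < η := by rw [hη]; positivity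
  refine ⟨l, η, hl, hη0, ?_⟩
  intro ε hε hεχ
  obtain ⟨C, D, κ₂, K₁, hC, hD, hκ₂, HP⟩ := pass_par hd h hε
  -- largeness of `k`
  have hev : ∀ {A : ℝ}, ∃ K : ℕ, ∀ k : ℕ, K ≤ k → A ≤ Real.exp (χ / 4 * k) := by
    intro A
    have h1 : Tendsto (fun k : ℕ => Real.exp (χ / 4 * k)) atTop atTop :=
      Real.tendsto_exp_atTop.comp (tendsto_natCast_atTop_atTop.const_mul_atTop (by positivity))
    obtain ⟨K, hK⟩ := eventually_atTop.1 (h1.eventually_ge_atTop A)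
    exact ⟨K, hK⟩
  obtain ⟨K₂, hK₂⟩ := hev (A := 2 * d * L / κ₁ + 2)
  obtain ⟨K₃, hK₃⟩ := hev (A := 4 / (κ₁ * κ₂))
  refine ⟨D, κ₁ * κ₂ / 4, max K₁ (max K₂ K₃), hD, by positivity, ?_⟩
  intro k N hk hN p hp h3 hpR
  have hk1 : K₁ ≤ k := le_of_max_le_left hk
  have hk2 : K₂ ≤ k := (le_max_left _ _).trans (le_of_max_le_right hk)
  have hk3 : K₃ ≤ k := (le_max_right _ _).trans (le_of_max_le_right hk)
  obtain ⟨s, hs⟩ : ∃ s, s = Real.exp (-((χ + 3 * ε) * k)) / D := ⟨_, rfl⟩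
  have hs0 : 0 < s := by rw [hs]; positivity
  have hk0 : (0 : ℝ) ≤ k := Nat.cast_nonneg k
  have hs1 : s ≤ Real.exp (-(χ * k)) := by
    rw [hs, div_le_iff₀ (by linarith)]
    calc Real.exp (-((χ + 3 * ε) * k)) ≤ Real.exp (-(χ * k)) := by
          apply Real.exp_le_exp.2
          have : 0 ≤ 3 * ε * k := by positivity
          linarith
      _ ≤ Real.exp (-(χ * k)) * D := le_mul_of_one_le_right (Real.exp_pos _).le hD
  have hLN : L ^ N ≤ Real.exp (χ / 8 * k) := by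
    rw [← Real.rpow_natCast, Real.rpow_def_of_pos hL0]
    apply Real.exp_le_exp.2
    have h4 : Real.log L * N ≤ Real.log L * (η * k) := by gcongr
    refine h4.trans (le_of_eq ?_)
    rw [hη]
    field_simp
  have hLN1 : 1 ≤ L ^ N := one_le_pow₀ (by linarith)
  have hsLN : s * L ^ (2 * N + 1) ≤ L * Real.exp (-(χ / 4 * k)) * Real.exp (-(χ / 4 * k)) := by
    calc s * L ^ (2 * N + 1) = L * (s * (L ^ N * L ^ N)) := by
          rw [pow_succ, two_mul, pow_add]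
          ring
      _ ≤ L * (Real.exp (-(χ * k)) * (Real.exp (χ / 8 * k) * Real.exp (χ / 8 * k))) := by gcongr
      _ = L * Real.exp (-(χ * k) + (χ / 8 * k + χ / 8 * k)) := by
          rw [← Real.exp_add, ← Real.exp_add]
      _ ≤ L * Real.exp (-(χ / 4 * k) + -(χ / 4 * k)) := by
          apply mul_le_mul_of_nonneg_left _ hL0.le
          apply Real.exp_le_exp.2
          have : 0 ≤ χ * k := by positivity
          linarith
      _ = _ := by rw [Real.exp_add]; ring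
  obtain ⟨T, hT⟩ : ∃ T, T = Real.exp (χ / 4 * k) := ⟨_, rfl⟩
  have hT0 : 0 < T := by rw [hT]; exact Real.exp_pos _
  have hTi : Real.exp (-(χ / 4 * k)) = T⁻¹ := by rw [hT, Real.exp_neg]
  have hT2 := hK₂ k hk2
  have hT3 := hK₃ k hk3
  rw [← hT] at hT2 hT3
  have hTge2 : 2 ≤ T := by
    have : 0 ≤ 2 * d * L / κ₁ := by positivity
    linarith
  have hTd : 2 * d * L ≤ κ₁ * T := by
    have h4 : 2 * d * L / κ₁ ≤ T := by linarith
    rw [div_le_iff₀ hκ₁] at h4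
    linarith
  rw [hTi] at hsLN
  have hTi1 : T⁻¹ ≤ 1 / 2 := by
    rw [inv_le_comm₀ hT0 (by norm_num)]
    linarith
  have hdsLN : d * s * L ^ (2 * N + 1) ≤ κ₁ / 2 := by
    calc d * s * L ^ (2 * N + 1) = d * (s * L ^ (2 * N + 1)) := by ring
      _ ≤ d * (L * T⁻¹ * T⁻¹) := by gcongr
      _ = (2 * d * L) * T⁻¹ * T⁻¹ / 2 := by ring
      _ ≤ (κ₁ * T) * T⁻¹ * T⁻¹ / 2 := by gcongr
      _ = κ₁ * T⁻¹ / 2 := by field_simp
      _ ≤ κ₁ * 1 / 2 := by
          gcongr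
          linarith
      _ = κ₁ / 2 := by ring
  have hsLN2 : s * L ^ N ≤ 1 / 2 := by
    have h4 : L ^ N ≤ L ^ (2 * N + 1) := pow_le_pow_right₀ (by linarith) (by omega)
    have h5 : 2 * (s * L ^ N) ≤ d * s * L ^ (2 * N + 1) := by
      calc 2 * (s * L ^ N) ≤ d * (s * L ^ (2 * N + 1)) := by gcongr
        _ = _ := by ring
    linarith
  -- perturbation
  obtain ⟨q, hq⟩ : ∃ q, q = P d (k + 1) p := ⟨_, rfl⟩
  have hqj : ∀ j, P d (k + 1 + j) p = (f d p)^[j] q := fun j => by rw [hq]; exact P_add hd k j p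
  have hqR : ∀ j ≤ N, ‖(f d p)^[j] q‖ ≤ R := by
    intro j hj
    rw [← hqj]
    exact hpR j hj
  rw [← hs] at hp
  have hsN : s * La d R ^ N ≤ 1 := by rw [← hL]; linarith
  have h4 := pert hd hR hs0.le hp hsN hqR
  have h5 := pert_der hd hR hs0.le hp hsN hqR N le_rfl
  rw [← hL] at h5
  have h6 : 5 / 2 < ‖(f d c₀)^[N] q‖ := by
    have h7 := (h4 N le_rfl).1
    rw [← hL] at h7
    rw [hqj] at h3
    have h8 := norm_sub_le ((f d p)^[N] q - (f d c₀)^[N] q) (-((f d c₀)^[N] q))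
    rw [sub_neg_eq_add, sub_add_cancel, norm_neg] at h8
    linarith
  have h7 := HE N q h6 (fun j hj => (h4 j hj).2)
  have hlN : 1 ≤ l ^ N := one_le_pow₀ hl.le
  have h8 : κ₁ / 2 * l ^ N ≤ ‖deriv ((f d p)^[N]) q‖ := by
    have h9 := norm_sub_le (deriv ((f d p)^[N]) q)
      (deriv ((f d p)^[N]) q - deriv ((f d c₀)^[N]) q)
    rw [sub_sub_cancel] at h9
    nlinarith
  have h9 : κ₂ * Real.exp ((χ - ε) * k) ≤ ‖deriv (P d (k + 1)) p‖ :=
    (HP k p (by rw [← hs]; exact hp)).1 hk1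
  have h10 := P_der_add hd hR k N (p := p) (fun j hj => hpR j hj.le)
  rw [← hL, ← hq] at h10
  have h11 : κ₁ * κ₂ / 2 * (l ^ N * Real.exp ((χ - ε) * k)) ≤
      ‖deriv ((f d p)^[N]) q * deriv (P d (k + 1)) p‖ := by
    rw [norm_mul]
    calc κ₁ * κ₂ / 2 * (l ^ N * Real.exp ((χ - ε) * k)) =
          (κ₁ / 2 * l ^ N) * (κ₂ * Real.exp ((χ - ε) * k)) := by ring
      _ ≤ _ := by gcongr
  have h12 : L ^ N ≤ κ₁ * κ₂ / 4 * (l ^ N * Real.exp ((χ - ε) * k)) := by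
    have h13 : Real.exp (χ / 8 * k) * (4 / (κ₁ * κ₂)) ≤ Real.exp ((χ - ε) * k) := by
      calc Real.exp (χ / 8 * k) * (4 / (κ₁ * κ₂)) ≤ Real.exp (χ / 8 * k) * T := by gcongr
        _ = Real.exp (χ / 8 * k + χ / 4 * k) := by rw [hT, Real.exp_add]
        _ ≤ _ := by
            apply Real.exp_le_exp.2
            nlinarith
    have h14 : Real.exp (χ / 8 * k) ≤ κ₁ * κ₂ / 4 * Real.exp ((χ - ε) * k) := by
      rw [mul_div_assoc', div_le_iff₀ (by positivity)] at h13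
      linarith
    calc L ^ N ≤ Real.exp (χ / 8 * k) := hLN
      _ ≤ κ₁ * κ₂ / 4 * (1 * Real.exp ((χ - ε) * k)) := by rw [one_mul]; exact h14
      _ ≤ _ := by gcongr
  have h13 := norm_sub_norm_le (deriv ((f d p)^[N]) q * deriv (P d (k + 1)) p)
    (deriv (P d (k + 1 + N)) p)
  rw [norm_sub_rev] at h13
  linarith

end Pool.Agent.H58AC
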