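import Pool.Agent.H58AC.E

set_option autoImplicit false

/-! # The derivative of the exterior map -/

namespace Pool.Agent.H58AC

open Set Filter Metric MeasureTheory
open Pool.Agent.H713R2 (IsExteriorMap exists_beta exteriorMap_unique differentiable_P)
open Pool.Agent.H713R2.AR (P_psi_le)
open Pool.Agent.H712R2 (P P_succ P_one mem_multibrot_iff)
open N62a1eb23 (multibrotSet)

variable {d : ℕ} {ψ : ℂ → ℂ}

theorem P_ext_le (hd : 2 ≤ d) (hψ : IsExteriorMap (multibrotSet d) ψ) (n : ℕ) {w : ℂ}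
    (hw : 1 < ‖w‖) : ‖P d (n + 1) (ψ w)‖ ≤ 2 * ‖w‖ ^ (d ^ n) := by
  obtain ⟨β, hβ⟩ := exists_beta (d := d) hd
  rw [exteriorMap_unique hβ hψ hw]
  exact P_psi_le hd hβ n hw

theorem isOpen_ext : IsOpen {z : ℂ | 1 < ‖z‖} := isOpen_lt continuous_const continuous_norm

/-- **Upper bound of the derivative of the exterior map.** -/
theorem psi_der_le (hd : 2 ≤ d) (hψ : IsExteriorMap (multibrotSet d) ψ) {m : ℕ} {w : ℂ} {A : ℝ}
    (hw1 : 1 < ‖w‖) (hw : 5 ≤ ‖w‖ ^ (d ^ m)) (hA : ‖w‖ ^ (d ^ m) ≤ A) :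
    ‖deriv (P d (m + 1)) (ψ w)‖ * ‖deriv ψ w‖ ≤ 8 * A * (d : ℝ) ^ m := by
  have hd0 : (0 : ℝ) < d := by exact_mod_cast (by omega : 0 < d)
  have hdm : (0 : ℝ) < (d : ℝ) ^ m := by positivity
  have hw0 : 0 < ‖w‖ := by linarith
  have hA0 : 0 ≤ A := by linarith
  obtain ⟨ρ, hρ⟩ : ∃ ρ : ℝ, ρ = 1 / (2 * (d : ℝ) ^ m) := ⟨_, rfl⟩
  have hρ0 : 0 < ρ := by rw [hρ]; positivity
  -- distance to the unit circle
  have h1 : 1 + 2 * ρ ≤ ‖w‖ := by
    have h2 : (1 : ℝ) ≤ (d : ℝ) ^ m * Real.log ‖w‖ := by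
      have h3 := Real.log_le_log (by norm_num) hw
      rw [Real.log_pow] at h3
      push_cast at h3
      have h4 : (1 : ℝ) ≤ Real.log 5 := by
        rw [Real.le_log_iff_exp_le (by norm_num)]
        have := Real.exp_one_lt_d9
        linarith
      linarith
    have h3 : 2 * ρ ≤ Real.log ‖w‖ := by
      have e1 : 2 * ρ = 1 / (d : ℝ) ^ m := by rw [hρ]; field_simp
      rw [e1, div_le_iff₀ hdm]
      linarith
    have h4 := Real.add_one_le_exp (Real.log ‖w‖)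
    rw [Real.exp_log hw0] at h4
    linarith
  have hmem : ∀ z ∈ closedBall w ρ, 1 < ‖z‖ ∧ ‖z‖ ≤ ‖w‖ * (1 + ρ) := by
    intro z hz
    rw [mem_closedBall, dist_eq_norm] at hz
    constructor
    · have h2 := norm_sub_le z (z - w)
      rw [sub_sub_cancel] at h2
      linarith
    · have h2 := norm_add_le w (z - w)
      rw [add_sub_cancel] at h2
      nlinarith
  have hpow : (1 + ρ) ^ (d ^ m) ≤ 2 := by
    have h2 : (1 + ρ) ^ (d ^ m) ≤ Real.exp (1 / 2) := by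
      calc (1 + ρ) ^ (d ^ m) ≤ (Real.exp ρ) ^ (d ^ m) := by
            apply pow_le_pow_left₀ (by positivity)
            have := Real.add_one_le_exp ρ
            linarith
        _ = Real.exp (1 / 2) := by
            rw [← Real.exp_nat_mul]
            congr 1
            rw [hρ]
            push_cast
            field_simp
    have h3 : Real.exp (1 / 2) ≤ 2 := by
      have h4 := Real.exp_one_lt_d9
      have h5 : Real.exp (1 / 2) ^ 2 = Real.exp 1 := by
        rw [← Real.exp_nat_mul]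
        norm_num
      have h6 := Real.exp_pos (1 / 2)
      nlinarith
    exact h2.trans h3
  have hQ : DifferentiableOn ℂ (fun z => P d (m + 1) (ψ z)) {z | 1 < ‖z‖} :=
    (differentiable_P d (m + 1)).comp_differentiableOn hψ.diff
  have hsub : closedBall w ρ ⊆ {z : ℂ | 1 < ‖z‖} := fun z hz => (hmem z hz).1
  have h2 := Complex.norm_deriv_le_of_forall_mem_sphere_norm_le
    (f := fun z => P d (m + 1) (ψ z)) (c := w) (R := ρ) (C := 4 * A) hρ0
    (by
      apply DifferentiableOn.diffContOnCl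
      rw [closure_ball _ hρ0.ne']
      exact hQ.mono hsub) (by
      intro z hz
      obtain ⟨h3, h4⟩ := hmem z (sphere_subset_closedBall hz)
      have h5 := P_ext_le hd hψ m h3
      have h6 : ‖z‖ ^ (d ^ m) ≤ A * 2 := by
        calc ‖z‖ ^ (d ^ m) ≤ (‖w‖ * (1 + ρ)) ^ (d ^ m) := pow_le_pow_left₀ (norm_nonneg _) h4 _
          _ = ‖w‖ ^ (d ^ m) * (1 + ρ) ^ (d ^ m) := mul_pow _ _ _
          _ ≤ A * 2 := by gcongr
      linarith)
  have h3 : deriv (fun z => P d (m + 1) (ψ z)) w = deriv (P d (m + 1)) (ψ w) * deriv ψ w := by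
    have h4 : HasDerivAt ψ (deriv ψ w) w :=
      (hψ.diff.differentiableAt (isOpen_ext.mem_nhds hw1)).hasDerivAt
    exact ((differentiable_P d (m + 1) (ψ w)).hasDerivAt.comp w h4).deriv
  rw [h3, norm_mul] at h2
  refine h2.trans (le_of_eq ?_)
  rw [hρ]
  field_simp
  ring

/-- the escape time of an exterior parameter -/
theorem lt_P_ext (hd : 2 ≤ d) (hψ : IsExteriorMap (multibrotSet d) ψ) {m : ℕ} {w : ℂ}
    (hw1 : 1 < ‖w‖) (hw : 5 ≤ ‖w‖ ^ (d ^ m)) (h3 : ‖ψ w‖ ≤ 3) : 3 < ‖P d (m + 1) (ψ w)‖ := by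
  by_contra hcon
  push Not at hcon
  have := Pool.Agent.Y736.HG.green_lower hd hψ hw1 h3 hcon
  linarith

/-- the derivative along a ray -/
theorem ray_deriv (hψ : IsExteriorMap (multibrotSet d) ψ) {ζ : ℂ} (hζ : ‖ζ‖ = 1) {r : ℝ}
    (hr : 1 < r) : HasDerivAt (fun r : ℝ => ψ (r * ζ)) (ζ * deriv ψ (r * ζ)) r := by
  have hn : ‖(r : ℂ) * ζ‖ = r := by
    rw [norm_mul, hζ, mul_one, Complex.norm_real, Real.norm_eq_abs, abs_of_nonneg (by linarith)]
  have h1 : HasDerivAt ψ (deriv ψ (r * ζ)) (r * ζ) :=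
    (hψ.diff.differentiableAt (isOpen_ext.mem_nhds (by
      show 1 < ‖(r : ℂ) * ζ‖
      rw [hn]
      exact hr))).hasDerivAt
  have h2 : HasDerivAt (fun r : ℝ => (r : ℂ) * ζ) ζ r := by
    simpa using (Complex.ofRealCLM.hasDerivAt (x := r)).mul_const ζ
  have h3 := h1.scomp r h2
  rw [smul_eq_mul] at h3
  exact h3

theorem norm_ray {ζ : ℂ} (hζ : ‖ζ‖ = 1) {r : ℝ} (hr : 0 ≤ r) : ‖(r : ℂ) * ζ‖ = r := by
  rw [norm_mul, hζ, mul_one, Complex.norm_real, Real.norm_eq_abs, abs_of_nonneg hr]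

end Pool.Agent.H58AC
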