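import Pool.Agent.H58AC.F

set_option autoImplicit false

/-! # Going up a ray -/

namespace Pool.Agent.H58AC

open Set Filter Metric MeasureTheory
open Pool.Agent.Y298.CA (Lyap)
open Pool.Agent.H713R2 (IsExteriorMap exists_beta exteriorMap_unique differentiable_P)
open Pool.Agent.H712R2 (P P_succ P_one mem_multibrot_iff)
open N62a1eb23 (multibrotSet)

variable {d : ℕ} {ψ : ℂ → ℂ} {χ : ℝ} {c₀ : ℂ}

/-- the radii of the levels -/
noncomputable def lev (d m : ℕ) : ℝ := Real.exp (Real.log 5 / (d : ℝ) ^ m)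

theorem log5 : 1 ≤ Real.log 5 ∧ Real.log 5 ≤ 2 := by
  constructor
  · rw [Real.le_log_iff_exp_le (by norm_num)]
    have := Real.exp_one_lt_d9
    linarith
  · rw [Real.log_le_iff_le_exp (by norm_num)]
    have h1 := Real.exp_one_gt_d9
    have h2 : Real.exp 2 = Real.exp 1 * Real.exp 1 := by rw [← Real.exp_add]; norm_num
    rw [h2]
    nlinarith

theorem lev_gt (hd : 2 ≤ d) (m : ℕ) : 1 < lev d m := by
  have hd0 : (0 : ℝ) < d := by exact_mod_cast (by omega : 0 < d)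
  have := log5.1
  rw [lev, ← Real.exp_zero]
  apply Real.exp_lt_exp.2
  positivity

theorem lev_anti (hd : 2 ≤ d) {m n : ℕ} (hmn : m ≤ n) : lev d n ≤ lev d m := by
  have hd1 : (1 : ℝ) ≤ d := by exact_mod_cast (by omega : 1 ≤ d)
  have hd0 : (0 : ℝ) < d := by linarith
  have := log5.1
  unfold lev
  apply Real.exp_le_exp.2
  apply div_le_div_of_nonneg_left (by linarith) (by positivity)
  exact pow_le_pow_right₀ hd1 hmn

theorem lev_pow (hd : 2 ≤ d) (m : ℕ) : lev d m ^ (d ^ m) = 5 := by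
  have hd0 : (0 : ℝ) < d := by exact_mod_cast (by omega : 0 < d)
  rw [lev, ← Real.exp_nat_mul]
  push_cast
  rw [mul_div_cancel₀ _ (by positivity), Real.exp_log (by norm_num)]

theorem lev_sub (hd : 2 ≤ d) (m : ℕ) : lev d m - 1 ≤ 10 / (d : ℝ) ^ m := by
  have hd1 : (1 : ℝ) ≤ d := by exact_mod_cast (by omega : 1 ≤ d)
  have hd0 : (0 : ℝ) < d := by linarith
  obtain ⟨h1, h2⟩ := log5
  obtain ⟨x, hx⟩ : ∃ x, x = Real.log 5 / (d : ℝ) ^ m := ⟨_, rfl⟩
  have hx0 : 0 ≤ x := by rw [hx]; positivity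
  have hx5 : Real.exp x ≤ 5 := by
    have h3 : x ≤ Real.log 5 := by
      rw [hx]
      apply div_le_self (by linarith)
      exact one_le_pow₀ hd1
    calc Real.exp x ≤ Real.exp (Real.log 5) := Real.exp_le_exp.2 h3
      _ = 5 := Real.exp_log (by norm_num)
  have h3 := Real.add_one_le_exp (-x)
  have h4 : Real.exp (-x) * Real.exp x = 1 := by rw [← Real.exp_add]; simp
  have h5 : Real.exp x - 1 ≤ x * Real.exp x := by
    nlinarith [Real.exp_pos x]
  rw [lev, ← hx]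
  have h6 : x * Real.exp x ≤ x * 5 := by gcongr
  have h7 : x * 5 ≤ 10 / (d : ℝ) ^ m := by
    rw [hx, div_mul_eq_mul_div]
    gcongr
    linarith
  linarith

/-- **One level of a ray.** -/
theorem step (hd : 2 ≤ d) (hψ : IsExteriorMap (multibrotSet d) ψ) (h : Lyap d χ c₀) :
    ∃ τ₀ : ℝ, 0 < τ₀ ∧ τ₀ < χ ∧ ∀ τ : ℝ, τ₀ < τ → τ < χ → ∃ m₀ : ℕ, ∀ m : ℕ, m₀ ≤ m →
      ∀ ζ : ℂ, ‖ζ‖ = 1 → ∀ r₀ : ℝ, lev d (m + 1) ≤ r₀ → r₀ ≤ lev d m →
        ‖ψ (r₀ * ζ) - c₀‖ ≤ Real.exp (-(τ * (m + 1 : ℕ))) → ∀ r : ℝ, r₀ ≤ r → r ≤ lev d m →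
          ‖ψ (r * ζ) - c₀‖ ≤ Real.exp (-(τ * m)) := by
  have hdR : (2 : ℝ) ≤ d := by exact_mod_cast hd
  have hd0 : (0 : ℝ) < d := by linarith
  have hχ : 0 < χ := h.1
  have hc2 : ‖c₀‖ ≤ 2 := by
    have := (mem_multibrot_iff hd c₀).1 h.2.1 1
    rwa [P_one hd] at this
  obtain ⟨R, hR⟩ : ∃ R : ℝ, R = 2 * 5 ^ d := ⟨_, rfl⟩
  have hR4 : 4 ≤ R := by
    rw [hR]
    have : (5 : ℝ) ^ 2 ≤ 5 ^ d := pow_le_pow_right₀ (by norm_num) hd
    linarith
  obtain ⟨l, η, hl, hη, HP⟩ := par_low hd h hR4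
  have hlogl : 0 < Real.log l := Real.log_pos hl
  obtain ⟨τ₀, hτ₀⟩ : ∃ τ₀, τ₀ = χ / (1 + η / 2) := ⟨_, rfl⟩
  have hτ₀0 : 0 < τ₀ := by rw [hτ₀]; positivity
  have hτ₀χ : τ₀ < χ := by
    rw [hτ₀, div_lt_iff₀ (by positivity)]
    have : 0 < χ * (η / 2) := by positivity
    linarith
  refine ⟨τ₀, hτ₀0, hτ₀χ, ?_⟩
  intro τ hτ1 hτ2
  have hτ0 : 0 < τ := hτ₀0.trans hτ1
  -- the small parameter
  obtain ⟨ε, hε0, hε1, hε2, hε3⟩ : ∃ ε : ℝ, 0 < ε ∧ ε ≤ χ / 2 ∧ 4 * ε * τ < (χ - τ) * Real.log l ∧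
      χ + 3 * ε < (1 + η) * τ := by
    have hA : 0 < (χ - τ) * Real.log l / (8 * χ) := by
      have : 0 < χ - τ := by linarith
      positivity
    have hB : χ < (1 + η) * τ := by
      have h1 : χ < (1 + η / 2) * τ := by
        rw [hτ₀, div_lt_iff₀ (by positivity)] at hτ1
        linarith
      have h2 : (1 + η / 2) * τ ≤ (1 + η) * τ := by
        gcongr
        linarith
      linarith
    refine ⟨min (min (χ / 2) ((χ - τ) * Real.log l / (8 * χ))) (((1 + η) * τ - χ) / 6), ?_, ?_, ?_, ?_⟩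
    · refine lt_min (lt_min (by linarith) hA) (by linarith)
    · exact (min_le_left _ _).trans (min_le_left _ _)
    · have h1 : min (min (χ / 2) ((χ - τ) * Real.log l / (8 * χ))) (((1 + η) * τ - χ) / 6) ≤
          (χ - τ) * Real.log l / (8 * χ) := (min_le_left _ _).trans (min_le_right _ _)
      have h2 : (χ - τ) * Real.log l / (8 * χ) * (4 * χ) = (χ - τ) * Real.log l / 2 := by
        field_simp
        ring
      have h3 : 0 < (χ - τ) * Real.log l := by
        have : 0 < χ - τ := by linarith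
        positivity
      have h4 : 0 < min (min (χ / 2) ((χ - τ) * Real.log l / (8 * χ))) (((1 + η) * τ - χ) / 6) :=
        lt_min (lt_min (by linarith) hA) (by linarith)
      nlinarith
    · have h1 := min_le_right (min (χ / 2) ((χ - τ) * Real.log l / (8 * χ))) (((1 + η) * τ - χ) / 6)
      linarith
  obtain ⟨D, κ, K₀, hD, hκ, HK⟩ := HP ε hε0 hε1
  have hE0 : 0 < χ + 3 * ε := by linarith
  obtain ⟨b, hb⟩ : ∃ b, b = Real.log (2 * D) := ⟨_, rfl⟩
  have hb0 : 0 ≤ b := by rw [hb]; exact Real.log_nonneg (by linarith)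
  -- the shadowing time
  obtain ⟨X, hX⟩ : ∃ X : ℕ → ℝ, X = fun n : ℕ => (τ * n - b) / (χ + 3 * ε) := ⟨_, rfl⟩
  obtain ⟨g, hg⟩ : ∃ g : ℝ, g = min 1 (Real.exp τ - 1) := ⟨_, rfl⟩
  have hg0 : 0 < g := by
    rw [hg]
    apply lt_min one_pos
    have := Real.add_one_le_exp τ
    linarith
  obtain ⟨C₂, hC₂⟩ : ∃ C₂ : ℝ, C₂ = 2 * (8 * 5 ^ d) * d * 10 / κ := ⟨_, rfl⟩
  have hC₂0 : 0 < C₂ := by rw [hC₂]; positivity
  -- largeness of `n`
  have hcast : Tendsto (fun n : ℕ => (n : ℝ)) atTop atTop := tendsto_natCast_atTop_atTop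
  have hXlim : Tendsto X atTop atTop := by
    rw [hX]
    apply Tendsto.atTop_div_const hE0
    exact tendsto_atTop_add_const_right _ _ (hcast.const_mul_atTop hτ0)
  have hF : Tendsto (fun n : ℕ => Real.log l * (n - X n) + (χ - ε) * (X n - 1) - τ * n) atTop atTop := by
    have e1 : (fun n : ℕ => Real.log l * (n - X n) + (χ - ε) * (X n - 1) - τ * n) =
        fun n : ℕ => (((χ + 3 * ε - τ) * Real.log l - 4 * ε * τ) / (χ + 3 * ε)) * (n : ℝ) +
          (Real.log l * b / (χ + 3 * ε) - (χ - ε) * b / (χ + 3 * ε) - (χ - ε)) := by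
      funext n
      rw [hX]
      field_simp
      ring
    rw [e1]
    apply tendsto_atTop_add_const_right
    apply hcast.const_mul_atTop
    apply div_pos _ hE0
    have : 0 < 3 * ε * Real.log l := by positivity
    linarith
  have hG : Tendsto (fun n : ℕ => (1 + η) * (X n - 1) - n) atTop atTop := by
    have e1 : (fun n : ℕ => (1 + η) * (X n - 1) - n) =
        fun n : ℕ => (((1 + η) * τ - (χ + 3 * ε)) / (χ + 3 * ε)) * (n : ℝ) +
          (-((1 + η) * b / (χ + 3 * ε)) - (1 + η)) := by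
      funext n
      rw [hX]
      field_simp
      ring
    rw [e1]
    apply tendsto_atTop_add_const_right
    apply hcast.const_mul_atTop
    apply div_pos _ hE0
    linarith
  have hsm : Tendsto (fun n : ℕ => 2 * Real.exp (-(τ * n))) atTop (nhds (2 * 0)) := by
    apply Tendsto.const_mul
    apply Real.tendsto_exp_neg_atTop_nhds_zero.comp
    exact hcast.const_mul_atTop hτ0
  rw [mul_zero] at hsm
  obtain ⟨m₀, hm₀⟩ := eventually_atTop.1 ((hXlim.eventually_ge_atTop ((K₀ : ℝ) + 1)).and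
    ((hG.eventually_ge_atTop 0).and ((hsm.eventually (ge_mem_nhds one_pos)).and
      ((Real.tendsto_exp_atTop.comp hF).eventually_ge_atTop (C₂ / g)))))
  refine ⟨m₀, ?_⟩
  intro m hm ζ hζ r₀ hr1 hr2 hr3 r hrr hrm
  obtain ⟨n, hn⟩ : ∃ n, n = m + 1 := ⟨_, rfl⟩
  rw [← hn] at hr1 hr3
  obtain ⟨h1, h2, h3, h4⟩ := hm₀ n (by omega)
  simp only [Function.comp] at h4
  obtain ⟨k, hk⟩ : ∃ k, k = ⌊X n⌋₊ := ⟨_, rfl⟩
  have hXn0 : 0 ≤ X n := by
    have : (0 : ℝ) ≤ K₀ := Nat.cast_nonneg _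
    linarith
  have hkX : (k : ℝ) ≤ X n := by rw [hk]; exact Nat.floor_le hXn0
  have hXk : X n < k + 1 := by rw [hk]; exact Nat.lt_floor_add_one _
  have hK₀k : K₀ ≤ k := by
    have : (K₀ : ℝ) < k + 1 := by linarith
    have : K₀ < k + 1 := by exact_mod_cast this
    omega
  have hXdef : X n * (χ + 3 * ε) = τ * n - b := by
    rw [hX]
    field_simp
  have hn0 : (0 : ℝ) ≤ n := Nat.cast_nonneg _
  have hkn : (k : ℝ) ≤ n := by
    have h5 : X n ≤ n := by
      have : X n * (χ + 3 * ε) ≤ n * (χ + 3 * ε) := by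
        rw [hXdef]
        nlinarith
      exact le_of_mul_le_mul_right this hE0
    linarith
  have hkn' : k ≤ n := by exact_mod_cast hkn
  obtain ⟨N, hN⟩ : ∃ N, n = k + N := ⟨n - k, by omega⟩
  have hNR : (N : ℝ) = n - k := by
    rw [hN]
    push_cast
    ring
  have hNη : (N : ℝ) ≤ η * k := by
    rw [hNR]
    nlinarith
  -- the disc
  have hdisc : 2 * Real.exp (-(τ * n)) ≤ Real.exp (-((χ + 3 * ε) * k)) / D := by
    rw [le_div_iff₀ (by linarith)]
    have e1 : 2 * D = Real.exp b := by rw [hb, Real.exp_log (by linarith)]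
    calc 2 * Real.exp (-(τ * n)) * D = Real.exp b * Real.exp (-(τ * n)) := by rw [← e1]; ring
      _ = Real.exp (b + -(τ * n)) := by rw [Real.exp_add]
      _ ≤ _ := by
          apply Real.exp_le_exp.2
          nlinarith
  -- the size of the derivative
  obtain ⟨W, hW⟩ : ∃ W, W = l ^ N * Real.exp ((χ - ε) * k) := ⟨_, rfl⟩
  have hW0 : 0 < W := by rw [hW]; positivity
  have hW1 : C₂ / g * Real.exp (τ * n) ≤ W := by
    have h5 : Real.exp (Real.log l * (n - X n) + (χ - ε) * (X n - 1) - τ * n) * Real.exp (τ * n) ≤ W := by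
      rw [← Real.exp_add, hW, ← Real.exp_log (show 0 < l by linarith), ← Real.exp_nat_mul,
        ← Real.exp_add, Real.exp_log (show 0 < l by linarith)]
      apply Real.exp_le_exp.2
      rw [hNR]
      have h6 : Real.log l * (n - X n) ≤ (n - k) * Real.log l := by nlinarith
      have h7 : (χ - ε) * (X n - 1) ≤ (χ - ε) * k := by
        apply mul_le_mul_of_nonneg_left _ (by linarith)
        linarith
      linarith
    refine le_trans ?_ h5
    gcongr
  obtain ⟨S, hS⟩ : ∃ S, S = 2 * (8 * 5 ^ d) * (d : ℝ) ^ n / (κ * W) := ⟨_, rfl⟩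
  have hS0 : 0 < S := by rw [hS]; positivity
  have hlen : S * (lev d m - 1) ≤ g * Real.exp (-(τ * n)) := by
    have h5 := lev_sub hd m
    have e1 : Real.exp (τ * n) * Real.exp (-(τ * n)) = 1 := by rw [← Real.exp_add]; simp
    calc S * (lev d m - 1) ≤ S * (10 / (d : ℝ) ^ m) := by gcongr
      _ = C₂ / W := by
          rw [hS, hC₂, hn, pow_succ]
          field_simp
      _ ≤ g * Real.exp (-(τ * n)) := by
          rw [div_le_iff₀ hW0]
          calc C₂ = g * (Real.exp (τ * n) * Real.exp (-(τ * n))) * (C₂ / g) := by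
                rw [e1]
                field_simp
            _ = g * Real.exp (-(τ * n)) * (C₂ / g * Real.exp (τ * n)) := by ring
            _ ≤ _ := by gcongr
  -- the barrier
  have hr₀1 : 1 < r₀ := (lev_gt hd n).trans_le hr1
  have hbar := image_norm_le_of_norm_deriv_right_lt_deriv_boundary' (a := r₀) (b := lev d m)
    (f := fun r : ℝ => ψ (r * ζ) - c₀) (f' := fun r => ζ * deriv ψ (r * ζ))
    (by
      intro x hx
      exact ((ray_deriv hψ hζ (hr₀1.trans_le hx.1)).sub_const c₀).continuousAt.continuousWithinAt)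
    (by
      intro x hx
      exact ((ray_deriv hψ hζ (hr₀1.trans_le hx.1)).sub_const c₀).hasDerivWithinAt)
    (B := fun r => Real.exp (-(τ * n)) + S * (r - r₀)) (B' := fun _ => S)
    (by
      simp only [sub_self, mul_zero, add_zero]
      exact hr3)
    (by fun_prop)
    (by
      intro x hx
      have h5 : HasDerivAt (fun r => Real.exp (-(τ * n)) + S * (r - r₀)) S x := by
        simpa using (((hasDerivAt_id x).sub_const r₀).const_mul S).const_add (Real.exp (-(τ * n)))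
      exact h5.hasDerivWithinAt)
    (by
      intro x hx hxe
      have hx1 : 1 < x := hr₀1.trans_le hx.1
      have hnx : ‖(x : ℂ) * ζ‖ = x := norm_ray hζ (by linarith)
      have h5 : ‖ψ (x * ζ) - c₀‖ ≤ 2 * Real.exp (-(τ * n)) := by
        rw [hxe]
        have h6 : S * (x - r₀) ≤ S * (lev d m - 1) := by
          gcongr
          exact hx.2.le
        have h7 : g * Real.exp (-(τ * n)) ≤ 1 * Real.exp (-(τ * n)) := by
          gcongr
          rw [hg]
          exact min_le_left _ _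
        linarith
      have hpw : 5 ≤ ‖(x : ℂ) * ζ‖ ^ (d ^ n) ∧ ‖(x : ℂ) * ζ‖ ^ (d ^ n) ≤ 5 ^ d := by
        rw [hnx]
        constructor
        · rw [← lev_pow hd n]
          exact pow_le_pow_left₀ (by linarith [lev_gt hd n]) (hr1.trans hx.1) _
        · have h6 : x ^ (d ^ n) ≤ lev d m ^ (d ^ n) := pow_le_pow_left₀ (by linarith) hx.2.le _
          rw [hn, pow_succ d m, pow_mul (lev d m), lev_pow hd m] at h6
          rw [hn, pow_succ d m]
          exact h6
      have h6 := h5.trans hdisc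
      have h7 : ‖ψ (x * ζ)‖ ≤ 3 := by
        have h8 := norm_add_le (ψ (x * ζ) - c₀) c₀
        rw [sub_add_cancel] at h8
        linarith
      have h8 := lt_P_ext hd hψ (m := n) (w := x * ζ) (by rw [hnx]; exact hx1) hpw.1 h7
      have h9 : κ * W ≤ ‖deriv (P d (n + 1)) (ψ (x * ζ))‖ := by
        have h10 := HK k N hK₀k hNη (ψ (x * ζ)) h6 (by
          rw [show k + 1 + N = n + 1 by omega]
          exact h8) (by
          intro j hj
          rw [show k + 1 + j = (k + j) + 1 by omega]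
          refine (P_ext_le hd hψ (k + j) (w := x * ζ) (by rw [hnx]; exact hx1)).trans ?_
          rw [hR]
          apply mul_le_mul_of_nonneg_left _ (by norm_num)
          refine le_trans ?_ hpw.2
          apply pow_le_pow_right₀ (by rw [hnx]; exact hx1.le)
          exact Nat.pow_le_pow_right (by omega) (by omega))
        rw [show k + 1 + N = n + 1 by omega, ← hW] at h10
        exact h10
      have h10 := psi_der_le hd hψ (m := n) (w := x * ζ) (A := 5 ^ d) (by rw [hnx]; exact hx1)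
        hpw.1 hpw.2
      show ‖ζ * deriv ψ (x * ζ)‖ < S
      rw [norm_mul, hζ, one_mul, hS, lt_div_iff₀ (by positivity)]
      have h11 : ‖deriv ψ (x * ζ)‖ * (κ * W) ≤ 8 * 5 ^ d * (d : ℝ) ^ n := by
        calc ‖deriv ψ (x * ζ)‖ * (κ * W) ≤ ‖deriv ψ (x * ζ)‖ *
              ‖deriv (P d (n + 1)) (ψ (x * ζ))‖ := by gcongr
          _ = ‖deriv (P d (n + 1)) (ψ (x * ζ))‖ * ‖deriv ψ (x * ζ)‖ := by ring
          _ ≤ _ := h10
      have h12 : (0 : ℝ) < 8 * 5 ^ d * (d : ℝ) ^ n := by positivity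
      linarith)
  have h5 := hbar ⟨hrr, hrm⟩
  refine h5.trans ?_
  have h6 : S * (r - r₀) ≤ S * (lev d m - 1) := by
    gcongr
  have h7 : g * Real.exp (-(τ * n)) ≤ (Real.exp τ - 1) * Real.exp (-(τ * n)) := by
    gcongr
    rw [hg]
    exact min_le_right _ _
  have h8 : Real.exp τ * Real.exp (-(τ * n)) = Real.exp (-(τ * m)) := by
    rw [← Real.exp_add, hn]
    congr 1
    push_cast
    ring
  show Real.exp (-(τ * n)) + S * (r - r₀) ≤ Real.exp (-(τ * m))
  nlinarith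

/-- **All the levels of a ray.** -/
theorem up_ray (hd : 2 ≤ d) (hψ : IsExteriorMap (multibrotSet d) ψ) (h : Lyap d χ c₀) :
    ∃ τ₀ : ℝ, 0 < τ₀ ∧ τ₀ < χ ∧ ∀ τ : ℝ, τ₀ < τ → τ < χ → ∃ m₀ : ℕ, ∀ m : ℕ,
      ∀ ζ : ℂ, ‖ζ‖ = 1 → ∀ r₀ : ℝ, lev d (m + 1) ≤ r₀ → r₀ ≤ lev d m →
        ‖ψ (r₀ * ζ) - c₀‖ ≤ Real.exp (-(τ * (m + 1 : ℕ))) → ∀ j : ℕ, m₀ ≤ j → j ≤ m →
          ∀ r : ℝ, r₀ ≤ r → lev d (j + 1) ≤ r → r ≤ lev d j →
            ‖ψ (r * ζ) - c₀‖ ≤ Real.exp (-(τ * j)) := by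
  obtain ⟨τ₀, h1, h2, H⟩ := step hd hψ h
  refine ⟨τ₀, h1, h2, fun τ hτ hτ2 => ?_⟩
  obtain ⟨m₀, hm₀⟩ := H τ hτ hτ2
  refine ⟨m₀, ?_⟩
  intro m ζ hζ r₀ hr1 hr2 hr3
  have key : ∀ i j : ℕ, m₀ ≤ j → j + i = m → ∀ r : ℝ, r₀ ≤ r → lev d (j + 1) ≤ r → r ≤ lev d j →
      ‖ψ (r * ζ) - c₀‖ ≤ Real.exp (-(τ * j)) := by
    intro i
    induction i with
    | zero =>
      intro j hj hjm r hr _ hr5
      have : j = m := by omega
      subst this
      exact hm₀ j hj ζ hζ r₀ hr1 hr2 hr3 r hr hr5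
    | succ i ih =>
      intro j hj hjm r hr hr4 hr5
      have h3 : r₀ ≤ lev d (j + 1) := hr2.trans (lev_anti hd (by omega))
      have h4 := ih (j + 1) (by omega) (by omega) (lev d (j + 1)) h3 (lev_anti hd (by omega)) le_rfl
      exact hm₀ j hj ζ hζ (lev d (j + 1)) le_rfl (lev_anti hd (by omega)) h4 r hr4 hr5
  intro j hj hjm
  exact key (m - j) j hj (by omega)

end Pool.Agent.H58AC
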