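import Pool.Agent.H58AC.G

set_option autoImplicit false

/-! # The ray which lands -/

namespace Pool.Agent.H58AC

open Set Filter Metric MeasureTheory Topology
open Pool.Agent.Y298.CA (Lyap)
open Pool.Agent.H713R2 (IsExteriorMap exists_beta exteriorMap_unique differentiable_P)
open Pool.Agent.H712R2 (P P_succ P_one mem_multibrot_iff)
open Pool.Agent.Y736.HD (GS ev_small ev_lt ev_pos lim_exp)
open Pool.Agent.Y736.HG (GS_bdd sup_lower lyap_up kap_pos)
open N62a1eb23 (multibrotSet)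

variable {d : ℕ} {ψ : ℂ → ℂ} {χ : ℝ} {c₀ : ℂ}

theorem exists_lev (hd : 2 ≤ d) {x : ℝ} (hx : 1 < x) (hx1 : x ≤ lev d 0) :
    ∃ m, lev d (m + 1) ≤ x ∧ x ≤ lev d m := by
  have hd1 : (1 : ℝ) < d := by exact_mod_cast (by omega : 1 < d)
  have hd0 : (0 : ℝ) < d := by linarith
  have h5 := log5.1
  have hlx : 0 < Real.log x := Real.log_pos hx
  have hlx1 : Real.log x ≤ Real.log 5 := by
    have h1 := Real.log_le_log (by linarith) hx1
    rw [lev, Real.log_exp, pow_zero, div_one] at h1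
    exact h1
  obtain ⟨m, h1, h2⟩ := exists_nat_pow_near (x := Real.log 5 / Real.log x) (y := (d : ℝ))
    (by rw [le_div_iff₀ hlx]; linarith) hd1
  rw [le_div_iff₀ hlx] at h1
  rw [div_lt_iff₀ hlx] at h2
  refine ⟨m, ?_, ?_⟩
  · rw [lev, ← Real.exp_log (show 0 < x by linarith)]
    apply Real.exp_le_exp.2
    rw [div_le_iff₀ (by positivity)]
    linarith
  · rw [lev, ← Real.exp_log (show 0 < x by linarith)]
    apply Real.exp_le_exp.2
    rw [le_div_iff₀ (by positivity)]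
    linarith

/-- **Starting points near `c₀` with almost the largest escape rate.** -/
theorem exists_starts (hd : 2 ≤ d) (hψ : IsExteriorMap (multibrotSet d) ψ) (h : Lyap d χ c₀) :
    ∃ w : ℕ → ℂ, (∀ n, 1 < ‖w n‖) ∧ Tendsto (fun n => Real.log ‖w n‖) atTop (𝓝 0) ∧
      ∀ τ : ℝ, 0 < τ → τ < χ → ∀ᶠ n in atTop, ∀ m : ℕ, lev d (m + 1) ≤ ‖w n‖ → ‖w n‖ ≤ lev d m →
        ‖ψ (w n) - c₀‖ ≤ Real.exp (-(τ * (m + 1 : ℕ))) := by
  have hd1 : (1 : ℝ) < d := by exact_mod_cast (by omega : 1 < d)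
  have hd0 : (0 : ℝ) < d := by linarith
  have hlogd : 0 < Real.log d := Real.log_pos hd1
  have hχ : 0 < χ := h.1
  have hκ := kap_pos hd h
  obtain ⟨s, hs⟩ : ∃ s : ℕ → ℝ, s = fun n : ℕ => 1 / ((n : ℝ) + 1) := ⟨_, rfl⟩
  have hs0 : ∀ n, 0 < s n := fun n => by rw [hs]; positivity
  have hslim : Tendsto s atTop (𝓝[>] 0) := by
    rw [tendsto_nhdsWithin_iff]
    refine ⟨?_, Eventually.of_forall fun n => hs0 n⟩
    rw [hs]
    exact tendsto_one_div_add_atTop_nhds_zero_nat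
  have hch : ∀ n, ∃ w : ℂ, 1 < ‖w‖ ∧ (0 < sSup (GS ψ c₀ (s n)) → ‖ψ w - c₀‖ ≤ s n ∧
      sSup (GS ψ c₀ (s n)) / 2 ≤ Real.log ‖w‖) := by
    intro n
    by_cases hpos : 0 < sSup (GS ψ c₀ (s n))
    · have hne : (GS ψ c₀ (s n)).Nonempty := by
        rw [nonempty_iff_ne_empty]
        intro h0
        rw [h0, Real.sSup_empty] at hpos
        exact lt_irrefl _ hpos
      obtain ⟨x, ⟨w, hw, hws, rfl⟩, hx⟩ := exists_lt_of_lt_csSup hne (half_lt_self hpos)
      exact ⟨w, hw, fun _ => ⟨hws, hx.le⟩⟩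
    · exact ⟨2, by norm_num, fun h0 => absurd h0 hpos⟩
  choose w hw1 hw2 using hch
  have hgood : ∀ ε : ℝ, 0 < ε → ∀ᶠ n in atTop, ‖ψ (w n) - c₀‖ ≤ s n ∧
      s n ^ (Real.log d / χ + ε) / 2 ≤ Real.log ‖w n‖ := by
    intro ε hε
    filter_upwards [hslim.eventually (sup_lower hd h hψ hε)] with n hn
    have h1 : 0 < s n ^ (Real.log d / χ + ε) := Real.rpow_pos_of_pos (hs0 n) _
    obtain ⟨h2, h3⟩ := hw2 n (h1.trans_le hn)
    exact ⟨h2, by linarith⟩
  have hlim : Tendsto (fun n => Real.log ‖w n‖) atTop (𝓝 0) := by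
    obtain ⟨κ, hκd⟩ : ∃ κ, κ = Real.log d / χ / 2 := ⟨_, rfl⟩
    have hκ0 : 0 < κ := by rw [hκd]; linarith
    obtain ⟨K, s₀, hK, hs₀, H⟩ := lyap_up hd h (κ := κ) hκ0 (by rw [hκd]; linarith)
    have h1 : Tendsto (fun n => K * s n ^ κ) atTop (𝓝 0) := by
      have h2 : Tendsto (fun r : ℝ => K * r ^ κ) (𝓝[>] 0) (𝓝 (K * (0 : ℝ) ^ κ)) := by
        apply Tendsto.const_mul
        exact (Real.continuousAt_rpow_const 0 κ (Or.inr hκ0.le)).tendsto.mono_left
          nhdsWithin_le_nhds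
      rw [Real.zero_rpow hκ0.ne', mul_zero] at h2
      exact h2.comp hslim
    refine squeeze_zero' (Eventually.of_forall fun n => Real.log_nonneg (hw1 n).le) ?_ h1
    filter_upwards [hgood 1 one_pos, hslim.eventually (ev_lt hs₀)] with n h2 h3
    exact H ψ hψ (s n) (hs0 n) h3.le (w n) (hw1 n) h2.1
  refine ⟨w, hw1, hlim, ?_⟩
  intro τ hτ0 hτ
  -- the exponent
  obtain ⟨ε, hε0, hε⟩ : ∃ ε : ℝ, 0 < ε ∧ τ * (Real.log d / χ + ε) < Real.log d := by
    refine ⟨(χ - τ) * Real.log d / (2 * χ * τ), ?_, ?_⟩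
    · have : 0 < χ - τ := by linarith
      positivity
    · have e1 : τ * (Real.log d / χ + (χ - τ) * Real.log d / (2 * χ * τ)) =
          Real.log d * ((χ + τ) / (2 * χ)) := by
        field_simp
        ring
      rw [e1]
      have h2 : (χ + τ) / (2 * χ) < 1 := by
        rw [div_lt_one (by positivity)]
        linarith
      nlinarith
  obtain ⟨a, ha⟩ : ∃ a, a = Real.log d / χ + ε := ⟨_, rfl⟩
  rw [← ha] at hε
  have ha0 : 0 < a := by rw [ha]; linarith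
  -- levels are large
  have hlarge : Tendsto (fun m : ℕ => (Real.log d - τ * a) * (m : ℝ)) atTop atTop :=
    tendsto_natCast_atTop_atTop.const_mul_atTop (by linarith)
  obtain ⟨m₁, hm₁⟩ := eventually_atTop.1 (hlarge.eventually_ge_atTop (Real.log 4 + τ * a))
  have hsmall : ∀ᶠ n in atTop, Real.log ‖w n‖ < Real.log 5 / (d : ℝ) ^ (m₁ + 1) := by
    have := log5.1
    exact hlim.eventually (gt_mem_nhds (by positivity))
  filter_upwards [hgood ε hε0, hsmall] with n hn1 hn2 m hm1 hm2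
  rw [← ha] at hn1
  obtain ⟨hn3, hn4⟩ := hn1
  have hwn := hw1 n
  have hm : m₁ ≤ m := by
    by_contra hcon
    push Not at hcon
    have h1 : lev d (m₁ + 1) ≤ lev d (m + 1) := lev_anti hd (by omega)
    have h2 := Real.log_le_log (by linarith [lev_gt hd (m₁ + 1)]) (h1.trans hm1)
    rw [lev, Real.log_exp] at h2
    linarith
  have h1 := hm₁ m hm
  have h2 : Real.log ‖w n‖ ≤ Real.log 5 / (d : ℝ) ^ m := by
    have := Real.log_le_log (by linarith) hm2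
    rw [lev, Real.log_exp] at this
    exact this
  have h3 : s n ^ a ≤ 4 / (d : ℝ) ^ m := by
    have h4 := log5.2
    have h5 : s n ^ a ≤ 2 * (Real.log 5 / (d : ℝ) ^ m) := by linarith
    refine h5.trans ?_
    rw [← mul_div_assoc]
    gcongr
    linarith
  refine hn3.trans ?_
  -- logarithms
  have h4 : a * Real.log (s n) ≤ Real.log 4 - m * Real.log d := by
    have h5 := Real.log_le_log (Real.rpow_pos_of_pos (hs0 n) a) h3
    rw [Real.log_rpow (hs0 n), Real.log_div (by norm_num) (by positivity), Real.log_pow] at h5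
    exact h5
  rw [← Real.exp_log (hs0 n)]
  apply Real.exp_le_exp.2
  have h5 : a * Real.log (s n) ≤ a * (-(τ * (m + 1 : ℕ))) := by
    refine h4.trans ?_
    push_cast
    linarith
  exact le_of_mul_le_mul_left h5 ha0

/-- **The ray.** -/
theorem exists_ray (hd : 2 ≤ d) (hψ : IsExteriorMap (multibrotSet d) ψ) (h : Lyap d χ c₀) :
    ∃ ζ : ℂ, ‖ζ‖ = 1 ∧ ∀ τ : ℝ, τ < χ → ∃ m₀ : ℕ, ∀ j : ℕ, m₀ ≤ j → ∀ r : ℝ,
      lev d (j + 1) ≤ r → r ≤ lev d j → ‖ψ (r * ζ) - c₀‖ ≤ Real.exp (-(τ * j)) := by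
  obtain ⟨w, hw1, hw2, hw3⟩ := exists_starts hd hψ h
  obtain ⟨τ₀, hτ₀, hτ₀χ, HU⟩ := up_ray hd hψ h
  obtain ⟨ζs, hζs⟩ : ∃ ζs : ℕ → ℂ, ζs = fun n => w n / ‖w n‖ := ⟨_, rfl⟩
  have hζn : ∀ n, ‖ζs n‖ = 1 := by
    intro n
    have := hw1 n
    rw [hζs]
    simp only [norm_div, Complex.norm_real, norm_norm]
    exact div_self (by linarith)
  have hζw : ∀ n, ((‖w n‖ : ℝ) : ℂ) * ζs n = w n := by
    intro n
    have := hw1 n
    rw [hζs]
    exact mul_div_cancel₀ _ (Complex.ofReal_ne_zero.2 (by linarith))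
  obtain ⟨ζ, hζ, φ, hφ, hlim⟩ := (isCompact_sphere (0 : ℂ) 1).tendsto_subseq
    (x := ζs) (fun n => by rw [mem_sphere_zero_iff_norm]; exact hζn n)
  rw [mem_sphere_zero_iff_norm] at hζ
  refine ⟨ζ, hζ, ?_⟩
  intro τ' hτ'
  obtain ⟨τ, hτ1, hτ2, hτ3⟩ : ∃ τ, τ₀ < τ ∧ τ < χ ∧ τ' ≤ τ := by
    refine ⟨(max τ₀ τ' + χ) / 2, ?_, ?_, ?_⟩
    · have := le_max_left τ₀ τ'
      linarith
    · have : max τ₀ τ' < χ := max_lt hτ₀χ hτ'
      linarith
    · have := le_max_right τ₀ τ'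
      linarith [max_lt hτ₀χ hτ']
  obtain ⟨m₀, hm₀⟩ := HU τ hτ1 hτ2
  refine ⟨m₀, ?_⟩
  intro j hj r hr1 hr2
  have hr : 1 < r := (lev_gt hd (j + 1)).trans_le hr1
  have hτ0 : 0 < τ := hτ₀.trans hτ1
  have h1 : ‖ψ (r * ζ) - c₀‖ ≤ Real.exp (-(τ * j)) := by
    have hcont : Tendsto (fun n => ‖ψ (r * ζs (φ n)) - c₀‖) atTop (𝓝 ‖ψ (r * ζ) - c₀‖) := by
      have h2 : ContinuousAt ψ (r * ζ) :=
        (hψ.diff.differentiableAt (isOpen_ext.mem_nhds (by
          show 1 < ‖(r : ℂ) * ζ‖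
          rw [norm_ray hζ (by linarith)]
          exact hr))).continuousAt
      have h3 : Tendsto (fun n => (r : ℂ) * ζs (φ n)) atTop (𝓝 (r * ζ)) := hlim.const_mul _
      exact ((h2.tendsto.comp h3).sub_const c₀).norm
    refine le_of_tendsto hcont ?_
    have h5 := log5.1
    have hd0 : (0 : ℝ) < d := by exact_mod_cast (by omega : 0 < d)
    filter_upwards [hφ.tendsto_atTop.eventually (hw3 τ hτ0 hτ2),
      (hw2.comp hφ.tendsto_atTop).eventually (gt_mem_nhds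
        (show 0 < Real.log 5 / (d : ℝ) ^ (j + 1) by positivity))] with n hn1 hn2
    have hwn := hw1 (φ n)
    have hlt : ‖w (φ n)‖ < lev d (j + 1) := by
      rw [lev, ← Real.exp_log (show 0 < ‖w (φ n)‖ by linarith)]
      exact Real.exp_lt_exp.2 hn2
    obtain ⟨m, hm1, hm2⟩ := exists_lev hd hwn (hlt.le.trans (lev_anti hd (by omega)))
    have hjm : j ≤ m := by
      by_contra hcon
      push Not at hcon
      have h6 : lev d (j + 1) ≤ lev d (m + 1) := lev_anti hd (by omega)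
      linarith
    exact hm₀ m (ζs (φ n)) (hζn _) ‖w (φ n)‖ hm1 hm2 (by
      rw [hζw]
      exact hn1 m hm1 hm2) j hj hjm r (by linarith) hr1 hr2
  refine h1.trans ?_
  apply Real.exp_le_exp.2
  have : (0 : ℝ) ≤ j := Nat.cast_nonneg j
  nlinarith

/-- the radii in terms of the levels -/
theorem lev_near (hd : 2 ≤ d) {t : ℝ} (ht : 0 < t) (ht1 : t ≤ 1) :
    ∃ j, lev d (j + 1) ≤ 1 + t ∧ 1 + t ≤ lev d j ∧ 1 / (d : ℝ) ^ j ≤ d * t ∧
      t ≤ 10 / (d : ℝ) ^ j := by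
  have hd0 : (0 : ℝ) < d := by exact_mod_cast (by omega : 0 < d)
  have h5 := log5.1
  obtain ⟨j, h1, h2⟩ := exists_lev hd (x := 1 + t) (by linarith) (by
    rw [lev, pow_zero, div_one, Real.exp_log (by norm_num)]
    linarith)
  refine ⟨j, h1, h2, ?_, ?_⟩
  · have h3 := Real.log_le_log (by linarith [lev_gt hd (j + 1)]) h1
    rw [lev, Real.log_exp] at h3
    have h4 : Real.log (1 + t) ≤ t := by
      have := Real.log_le_sub_one_of_pos (show 0 < 1 + t by linarith)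
      linarith
    have h6 : 1 / (d : ℝ) ^ (j + 1) ≤ t := by
      have : 1 / (d : ℝ) ^ (j + 1) ≤ Real.log 5 / (d : ℝ) ^ (j + 1) := by gcongr
      linarith
    rw [pow_succ, div_le_iff₀ (by positivity)] at h6
    rw [div_le_iff₀ (by positivity)]
    linarith
  · have h3 := lev_sub hd j
    linarith

/-- large levels near the circle -/
theorem lev_large (hd : 2 ≤ d) (m₀ : ℕ) : ∀ᶠ t : ℝ in 𝓝[>] 0, ∀ j : ℕ, 1 / (d : ℝ) ^ j ≤ d * t →
    m₀ ≤ j := by
  have hd1 : (1 : ℝ) < d := by exact_mod_cast (by omega : 1 < d)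
  have hd0 : (0 : ℝ) < d := by linarith
  filter_upwards [ev_lt (a := 1 / (d * (d : ℝ) ^ m₀)) (by positivity)] with t ht j hj
  by_contra hcon
  push Not at hcon
  have h1 : (d : ℝ) ^ j ≤ (d : ℝ) ^ m₀ := pow_le_pow_right₀ hd1.le (by omega)
  have h2 : 1 / (d : ℝ) ^ m₀ ≤ 1 / (d : ℝ) ^ j := one_div_le_one_div_of_le (by positivity) h1
  have h3 : d * t < d * (1 / (d * (d : ℝ) ^ m₀)) := by gcongr
  have h4 : d * (1 / (d * (d : ℝ) ^ m₀)) = 1 / (d : ℝ) ^ m₀ := by field_simp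
  linarith

/-- powers of the degree -/
theorem exp_pow (hd : 2 ≤ d) (τ : ℝ) (j : ℕ) :
    Real.exp (-(τ * j)) = (1 / (d : ℝ) ^ j) ^ (τ / Real.log d) := by
  have hd1 : (1 : ℝ) < d := by exact_mod_cast (by omega : 1 < d)
  have hlogd : 0 < Real.log d := Real.log_pos hd1
  rw [Real.rpow_def_of_pos (by positivity), one_div, Real.log_inv, Real.log_pow]
  congr 1
  field_simp

/-- **Upper bound along the ray.** -/
theorem ray_upper (hd : 2 ≤ d) {ζ : ℂ}
    (H : ∀ τ : ℝ, τ < χ → ∃ m₀ : ℕ, ∀ j : ℕ, m₀ ≤ j → ∀ r : ℝ,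
      lev d (j + 1) ≤ r → r ≤ lev d j → ‖ψ (r * ζ) - c₀‖ ≤ Real.exp (-(τ * j))) {ε : ℝ} (hε : 0 < ε)
    (hε2 : ε < χ / Real.log d) :
    ∀ᶠ t : ℝ in 𝓝[>] 0, ‖ψ ((1 + t : ℝ) * ζ) - c₀‖ ≤ t ^ (χ / Real.log d - ε) := by
  have hd1 : (1 : ℝ) < d := by exact_mod_cast (by omega : 1 < d)
  have hlogd : 0 < Real.log d := Real.log_pos hd1
  obtain ⟨a, ha⟩ : ∃ a, a = χ / Real.log d - ε / 2 := ⟨_, rfl⟩
  have ha0 : 0 < a := by rw [ha]; linarith
  obtain ⟨m₀, hm₀⟩ := H (a * Real.log d) (by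
    rw [ha, sub_mul, div_mul_cancel₀ _ hlogd.ne']
    have : 0 < ε / 2 * Real.log d := by positivity
    linarith)
  filter_upwards [ev_pos, ev_lt one_pos, lev_large hd m₀,
    ev_small (C := (d : ℝ) ^ a) (half_pos hε)] with t ht0 ht1 hlarge hsm
  obtain ⟨j, h1, h2, h3, h4⟩ := lev_near hd ht0 ht1.le
  refine (hm₀ j (hlarge j h3) (1 + t) h1 h2).trans ?_
  rw [exp_pow hd, mul_div_assoc, div_self hlogd.ne', mul_one]
  calc (1 / (d : ℝ) ^ j) ^ a ≤ (d * t) ^ a := Real.rpow_le_rpow (by positivity) h3 ha0.le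
    _ = (d : ℝ) ^ a * t ^ a := Real.mul_rpow (by linarith) ht0.le
    _ = ((d : ℝ) ^ a * t ^ (ε / 2)) * t ^ (χ / Real.log d - ε) := by
        rw [mul_assoc, ← Real.rpow_add ht0]
        congr 2
        rw [ha]
        ring
    _ ≤ 1 * t ^ (χ / Real.log d - ε) := by gcongr
    _ = _ := one_mul _

/-- **Lower bound at all the exterior parameters.** -/
theorem ext_lower (hd : 2 ≤ d) (hψ : IsExteriorMap (multibrotSet d) ψ) (h : Lyap d χ c₀) {ε : ℝ}
    (hε : 0 < ε) : ∀ᶠ t : ℝ in 𝓝[>] 0, ∀ w : ℂ, ‖w‖ = 1 + t →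
      t ^ (χ / Real.log d + ε) ≤ ‖ψ w - c₀‖ := by
  have hd1 : (1 : ℝ) < d := by exact_mod_cast (by omega : 1 < d)
  have hlogd : 0 < Real.log d := Real.log_pos hd1
  have hχ : 0 < χ := h.1
  obtain ⟨a, ha⟩ : ∃ a, a = χ / Real.log d + ε / 2 := ⟨_, rfl⟩
  have ha0 : 0 < a := by rw [ha]; positivity
  obtain ⟨K, s₀, hK, hs₀, H⟩ := lyap_up hd h (κ := 1 / a) (by positivity) (by
    rw [div_lt_div_iff₀ ha0 hχ, ha, mul_add, mul_div_cancel₀ _ hlogd.ne']
    have : 0 < Real.log d * (ε / 2) := by positivity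
    linarith)
  have hsmall : ∀ᶠ t : ℝ in 𝓝[>] 0, t ^ (χ / Real.log d + ε) < s₀ := by
    have h2 : Tendsto (fun r : ℝ => r ^ (χ / Real.log d + ε)) (𝓝[>] 0)
        (𝓝 ((0 : ℝ) ^ (χ / Real.log d + ε))) :=
      (Real.continuousAt_rpow_const 0 _ (Or.inr (by positivity))).tendsto.mono_left
        nhdsWithin_le_nhds
    rw [Real.zero_rpow (by positivity)] at h2
    exact h2.eventually (gt_mem_nhds hs₀)
  filter_upwards [ev_pos, ev_lt one_pos, ev_small (C := (2 * K) ^ a) (half_pos hε), hsmall]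
    with t ht0 ht1 hsm hs w hw
  by_contra hcon
  push Not at hcon
  obtain ⟨y, hy⟩ : ∃ y, y = t ^ (χ / Real.log d + ε) := ⟨_, rfl⟩
  rw [← hy] at hcon hs
  have hy0 : 0 < y := by rw [hy]; exact Real.rpow_pos_of_pos ht0 _
  have h1 := H ψ hψ y hy0 hs.le w (by rw [hw]; linarith) hcon.le
  have h2 : t / 2 < Real.log ‖w‖ := by
    rw [hw]
    have h3 := Real.one_sub_inv_le_log_of_pos (show 0 < 1 + t by linarith)
    have h4 : t / 2 < 1 - (1 + t)⁻¹ := by
      have : 1 - (1 + t)⁻¹ = t / (1 + t) := by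
        field_simp
        ring
      rw [this]
      apply div_lt_div_of_pos_left ht0 (by linarith) (by linarith)
    linarith
  have h3 : t < (2 * K) * y ^ (1 / a) := by linarith
  have h4 : t ^ a < (2 * K) ^ a * y := by
    calc t ^ a < ((2 * K) * y ^ (1 / a)) ^ a := Real.rpow_lt_rpow ht0.le h3 ha0
      _ = (2 * K) ^ a * y := by
          rw [Real.mul_rpow (by positivity) (by positivity), ← Real.rpow_mul hy0.le,
            one_div, inv_mul_cancel₀ ha0.ne', Real.rpow_one]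
  have h5 : (2 * K) ^ a * y ≤ t ^ a := by
    calc (2 * K) ^ a * y = ((2 * K) ^ a * t ^ (ε / 2)) * t ^ a := by
          rw [hy, mul_assoc, ← Real.rpow_add ht0]
          congr 2
          rw [ha]
          ring
      _ ≤ 1 * t ^ a := by gcongr
      _ = t ^ a := one_mul _
  linarith

end Pool.Agent.H58AC
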