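import Pool.Agent.H58AC.H

set_option autoImplicit false

/-! # The derivative of the exterior map near the critical scale; moving sideways -/

namespace Pool.Agent.H58AC

open Set Filter Metric MeasureTheory Topology
open Pool.Agent.Y298.CA (Lyap)
open Pool.Agent.H713R2 (IsExteriorMap exists_beta exteriorMap_unique differentiable_P)
open Pool.Agent.H712R2 (P P_succ P_one mem_multibrot_iff)
open N62a1eb23 (multibrotSet)

variable {d : ℕ} {ψ : ℂ → ℂ} {χ : ℝ} {c₀ : ℂ}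

/-- **Upper bound of the derivative of the exterior map.** -/
theorem der_up (hd : 2 ≤ d) (hψ : IsExteriorMap (multibrotSet d) ψ) (h : Lyap d χ c₀) :
    ∃ τ₀ : ℝ, 0 < τ₀ ∧ τ₀ < χ ∧ ∀ τ : ℝ, τ₀ < τ → τ < χ → ∃ γ : ℝ, 0 < γ ∧ ∃ n₀ : ℕ, ∀ n : ℕ,
      n₀ ≤ n → ∀ w : ℂ, 1 < ‖w‖ → 5 ≤ ‖w‖ ^ (d ^ n) → ‖w‖ ^ (d ^ n) ≤ 5 ^ d →
        ‖ψ w - c₀‖ ≤ 2 * Real.exp (-(τ * n)) →
          ‖deriv ψ w‖ ≤ (d : ℝ) ^ n * Real.exp (-((τ + γ) * n)) := by
  have hdR : (2 : ℝ) ≤ d := by exact_mod_cast hd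
  have hd0 : (0 : ℝ) < d := by linarith
  have hχ : 0 < χ := h.1
  have hc2 : ‖c₀‖ ≤ 2 := by
    have := (mem_multibrot_iff hd c₀).1 h.2.1 1
    rwa [P_one hd] at this
  obtain ⟨R, hR⟩ : ∃ R : ℝ, R = 2 * 5 ^ d := ⟨_, rfl⟩
  have hR4 : 4 ≤ R := by
    rw [hR]
    have : (5 : ℝ) ^ 2 ≤ 5 ^ d := pow_le_pow_right₀ (by norm_num) hd
    linarith
  obtain ⟨l, η, hl, hη, HP⟩ := par_low hd h hR4
  have hlogl : 0 < Real.log l := Real.log_pos hl
  obtain ⟨τ₀, hτ₀⟩ : ∃ τ₀, τ₀ = χ / (1 + η / 2) := ⟨_, rfl⟩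
  have hτ₀0 : 0 < τ₀ := by rw [hτ₀]; positivity
  have hτ₀χ : τ₀ < χ := by
    rw [hτ₀, div_lt_iff₀ (by positivity)]
    have : 0 < χ * (η / 2) := by positivity
    linarith
  refine ⟨τ₀, hτ₀0, hτ₀χ, ?_⟩
  intro τ hτ1 hτ2
  have hτ0 : 0 < τ := hτ₀0.trans hτ1
  -- the small parameter
  obtain ⟨ε, hε0, hε1, hε2, hε3⟩ : ∃ ε : ℝ, 0 < ε ∧ ε ≤ χ / 2 ∧ 4 * ε * τ < (χ - τ) * Real.log l ∧
      χ + 3 * ε < (1 + η) * τ := by
    have hA : 0 < (χ - τ) * Real.log l / (8 * χ) := by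
      have : 0 < χ - τ := by linarith
      positivity
    have hB : χ < (1 + η) * τ := by
      have h1 : χ < (1 + η / 2) * τ := by
        rw [hτ₀, div_lt_iff₀ (by positivity)] at hτ1
        linarith
      have h2 : (1 + η / 2) * τ ≤ (1 + η) * τ := by
        gcongr
        linarith
      linarith
    refine ⟨min (min (χ / 2) ((χ - τ) * Real.log l / (8 * χ))) (((1 + η) * τ - χ) / 6), ?_, ?_, ?_, ?_⟩
    · refine lt_min (lt_min (by linarith) hA) (by linarith)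
    · exact (min_le_left _ _).trans (min_le_left _ _)
    · have h1 : min (min (χ / 2) ((χ - τ) * Real.log l / (8 * χ))) (((1 + η) * τ - χ) / 6) ≤
          (χ - τ) * Real.log l / (8 * χ) := (min_le_left _ _).trans (min_le_right _ _)
      have h2 : (χ - τ) * Real.log l / (8 * χ) * (4 * χ) = (χ - τ) * Real.log l / 2 := by
        field_simp
        ring
      have h3 : 0 < (χ - τ) * Real.log l := by
        have : 0 < χ - τ := by linarith
        positivity
      have h4 : 0 < min (min (χ / 2) ((χ - τ) * Real.log l / (8 * χ))) (((1 + η) * τ - χ) / 6) :=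
        lt_min (lt_min (by linarith) hA) (by linarith)
      nlinarith
    · have h1 := min_le_right (min (χ / 2) ((χ - τ) * Real.log l / (8 * χ))) (((1 + η) * τ - χ) / 6)
      linarith
  obtain ⟨D, κ, K₀, hD, hκ, HK⟩ := HP ε hε0 hε1
  have hE0 : 0 < χ + 3 * ε := by linarith
  obtain ⟨b, hb⟩ : ∃ b, b = Real.log (2 * D) := ⟨_, rfl⟩
  have hb0 : 0 ≤ b := by rw [hb]; exact Real.log_nonneg (by linarith)
  obtain ⟨X, hX⟩ : ∃ X : ℕ → ℝ, X = fun n : ℕ => (τ * n - b) / (χ + 3 * ε) := ⟨_, rfl⟩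
  obtain ⟨C₂, hC₂⟩ : ∃ C₂ : ℝ, C₂ = 8 * 5 ^ d / κ := ⟨_, rfl⟩
  have hC₂0 : 0 < C₂ := by rw [hC₂]; positivity
  obtain ⟨γ, hγ⟩ : ∃ γ, γ = ((χ + 3 * ε - τ) * Real.log l - 4 * ε * τ) / (χ + 3 * ε) / 2 := ⟨_, rfl⟩
  have hγ0 : 0 < γ := by
    rw [hγ]
    have h1 : 0 < (χ + 3 * ε - τ) * Real.log l - 4 * ε * τ := by
      have : 0 < 3 * ε * Real.log l := by positivity
      linarith
    positivity
  refine ⟨γ, hγ0, ?_⟩
  -- largeness of `n`
  have hcast : Tendsto (fun n : ℕ => (n : ℝ)) atTop atTop := tendsto_natCast_atTop_atTop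
  have hXlim : Tendsto X atTop atTop := by
    rw [hX]
    apply Tendsto.atTop_div_const hE0
    exact tendsto_atTop_add_const_right _ _ (hcast.const_mul_atTop hτ0)
  have hF : Tendsto (fun n : ℕ => Real.log l * (n - X n) + (χ - ε) * (X n - 1) - (τ + γ) * n)
      atTop atTop := by
    have e1 : (fun n : ℕ => Real.log l * (n - X n) + (χ - ε) * (X n - 1) - (τ + γ) * n) =
        fun n : ℕ => γ * (n : ℝ) +
          (Real.log l * b / (χ + 3 * ε) - (χ - ε) * b / (χ + 3 * ε) - (χ - ε)) := by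
      funext n
      rw [hX, hγ]
      field_simp
      ring
    rw [e1]
    apply tendsto_atTop_add_const_right
    exact hcast.const_mul_atTop hγ0
  have hG : Tendsto (fun n : ℕ => (1 + η) * (X n - 1) - n) atTop atTop := by
    have e1 : (fun n : ℕ => (1 + η) * (X n - 1) - n) =
        fun n : ℕ => (((1 + η) * τ - (χ + 3 * ε)) / (χ + 3 * ε)) * (n : ℝ) +
          (-((1 + η) * b / (χ + 3 * ε)) - (1 + η)) := by
      funext n
      rw [hX]
      field_simp
      ring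
    rw [e1]
    apply tendsto_atTop_add_const_right
    apply hcast.const_mul_atTop
    apply div_pos _ hE0
    linarith
  have hsm : Tendsto (fun n : ℕ => 2 * Real.exp (-(τ * n))) atTop (nhds (2 * 0)) := by
    apply Tendsto.const_mul
    apply Real.tendsto_exp_neg_atTop_nhds_zero.comp
    exact hcast.const_mul_atTop hτ0
  rw [mul_zero] at hsm
  obtain ⟨m₀, hm₀⟩ := eventually_atTop.1 ((hXlim.eventually_ge_atTop ((K₀ : ℝ) + 1)).and
    ((hG.eventually_ge_atTop 0).and ((hsm.eventually (ge_mem_nhds one_pos)).and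
      ((Real.tendsto_exp_atTop.comp hF).eventually_ge_atTop C₂))))
  refine ⟨m₀, ?_⟩
  intro n hn w hw1 hwl hwu hwc
  obtain ⟨h1, h2, h3, h4⟩ := hm₀ n hn
  simp only [Function.comp] at h4
  obtain ⟨k, hk⟩ : ∃ k, k = ⌊X n⌋₊ := ⟨_, rfl⟩
  have hXn0 : 0 ≤ X n := by
    have : (0 : ℝ) ≤ K₀ := Nat.cast_nonneg _
    linarith
  have hkX : (k : ℝ) ≤ X n := by rw [hk]; exact Nat.floor_le hXn0
  have hXk : X n < k + 1 := by rw [hk]; exact Nat.lt_floor_add_one _
  have hK₀k : K₀ ≤ k := by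
    have : (K₀ : ℝ) < k + 1 := by linarith
    have : K₀ < k + 1 := by exact_mod_cast this
    omega
  have hXdef : X n * (χ + 3 * ε) = τ * n - b := by
    rw [hX]
    field_simp
  have hn0 : (0 : ℝ) ≤ n := Nat.cast_nonneg _
  have hkn : (k : ℝ) ≤ n := by
    have h5 : X n ≤ n := by
      have : X n * (χ + 3 * ε) ≤ n * (χ + 3 * ε) := by
        rw [hXdef]
        nlinarith
      exact le_of_mul_le_mul_right this hE0
    linarith
  have hkn' : k ≤ n := by exact_mod_cast hkn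
  obtain ⟨N, hN⟩ : ∃ N, n = k + N := ⟨n - k, by omega⟩
  have hNR : (N : ℝ) = n - k := by
    rw [hN]
    push_cast
    ring
  have hNη : (N : ℝ) ≤ η * k := by
    rw [hNR]
    nlinarith
  have hdisc : 2 * Real.exp (-(τ * n)) ≤ Real.exp (-((χ + 3 * ε) * k)) / D := by
    rw [le_div_iff₀ (by linarith)]
    have e1 : 2 * D = Real.exp b := by rw [hb, Real.exp_log (by linarith)]
    calc 2 * Real.exp (-(τ * n)) * D = Real.exp b * Real.exp (-(τ * n)) := by rw [← e1]; ring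
      _ = Real.exp (b + -(τ * n)) := by rw [Real.exp_add]
      _ ≤ _ := by
          apply Real.exp_le_exp.2
          nlinarith
  obtain ⟨W, hW⟩ : ∃ W, W = l ^ N * Real.exp ((χ - ε) * k) := ⟨_, rfl⟩
  have hW0 : 0 < W := by rw [hW]; positivity
  have hW1 : C₂ * Real.exp ((τ + γ) * n) ≤ W := by
    have h5 : Real.exp (Real.log l * (n - X n) + (χ - ε) * (X n - 1) - (τ + γ) * n) *
        Real.exp ((τ + γ) * n) ≤ W := by
      rw [← Real.exp_add, hW, ← Real.exp_log (show 0 < l by linarith), ← Real.exp_nat_mul,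
        ← Real.exp_add, Real.exp_log (show 0 < l by linarith)]
      apply Real.exp_le_exp.2
      rw [hNR]
      have h6 : Real.log l * (n - X n) ≤ (n - k) * Real.log l := by nlinarith
      have h7 : (χ - ε) * (X n - 1) ≤ (χ - ε) * k := by
        apply mul_le_mul_of_nonneg_left _ (by linarith)
        linarith
      linarith
    refine le_trans ?_ h5
    gcongr
  have h5 := hwc.trans hdisc
  have h7 : ‖ψ w‖ ≤ 3 := by
    have h8 := norm_add_le (ψ w - c₀) c₀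
    rw [sub_add_cancel] at h8
    linarith
  have h8 := lt_P_ext hd hψ (m := n) hw1 hwl h7
  have h9 : κ * W ≤ ‖deriv (P d (n + 1)) (ψ w)‖ := by
    have h10 := HK k N hK₀k hNη (ψ w) h5 (by
      rw [show k + 1 + N = n + 1 by omega]
      exact h8) (by
      intro j hj
      rw [show k + 1 + j = (k + j) + 1 by omega]
      refine (P_ext_le hd hψ (k + j) hw1).trans ?_
      rw [hR]
      apply mul_le_mul_of_nonneg_left _ (by norm_num)
      refine le_trans ?_ hwu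
      apply pow_le_pow_right₀ hw1.le
      exact Nat.pow_le_pow_right (by omega) (by omega))
    rw [show k + 1 + N = n + 1 by omega, ← hW] at h10
    exact h10
  have h10 := psi_der_le hd hψ (m := n) (w := w) (A := 5 ^ d) hw1 hwl hwu
  have h11 : ‖deriv ψ w‖ * (κ * W) ≤ 8 * 5 ^ d * (d : ℝ) ^ n := by
    calc ‖deriv ψ w‖ * (κ * W) ≤ ‖deriv ψ w‖ * ‖deriv (P d (n + 1)) (ψ w)‖ := by gcongr
      _ = ‖deriv (P d (n + 1)) (ψ w)‖ * ‖deriv ψ w‖ := by ring
      _ ≤ _ := h10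
  have h12 : ‖deriv ψ w‖ * W ≤ C₂ * (d : ℝ) ^ n := by
    rw [hC₂, div_mul_eq_mul_div, le_div_iff₀ hκ]
    linarith
  have h13 : ‖deriv ψ w‖ * (C₂ * Real.exp ((τ + γ) * n)) ≤ C₂ * (d : ℝ) ^ n :=
    (mul_le_mul_of_nonneg_left hW1 (norm_nonneg _)).trans h12
  have h14 : ‖deriv ψ w‖ * Real.exp ((τ + γ) * n) ≤ (d : ℝ) ^ n := by
    have : C₂ * (‖deriv ψ w‖ * Real.exp ((τ + γ) * n)) ≤ C₂ * (d : ℝ) ^ n := by linarith
    exact le_of_mul_le_mul_left this hC₂0
  rw [Real.exp_neg, ← div_eq_mul_inv, le_div_iff₀ (Real.exp_pos _)]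
  exact h14

theorem exp_log_pow (hd : 2 ≤ d) (n : ℕ) : Real.exp (Real.log d * n) = (d : ℝ) ^ n := by
  have hd0 : (0 : ℝ) < d := by exact_mod_cast (by omega : 0 < d)
  rw [mul_comm, Real.exp_nat_mul, Real.exp_log hd0]

theorem norm_ray' {r : ℝ} (hr : 0 ≤ r) (z : ℂ) : ‖(r : ℂ) * z‖ = r * ‖z‖ := by
  rw [norm_mul, Complex.norm_real, Real.norm_eq_abs, abs_of_nonneg hr]

/-- **Moving sideways along a circle.** -/
theorem sideways (hd : 2 ≤ d) (hψ : IsExteriorMap (multibrotSet d) ψ) (h : Lyap d χ c₀) :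
    ∃ τ₀ : ℝ, 0 < τ₀ ∧ τ₀ < χ ∧ ∀ τ : ℝ, τ₀ < τ → τ < χ → ∃ η : ℝ, 0 < η ∧ η < 1 ∧ ∃ n₀ : ℕ,
      ∀ n : ℕ, n₀ ≤ n → ∀ ζ : ℂ, ‖ζ‖ = 1 → ∀ r : ℝ, lev d n ≤ r → 5 ≤ r ^ (d ^ n) →
        r ^ (d ^ n) ≤ 5 ^ d → r ≤ 5 → ‖ψ (r * ζ) - c₀‖ ≤ Real.exp (-(τ * n)) →
          ∀ θ : ℝ, |θ| ≤ 100 * d * (1 / (d : ℝ) ^ n) ^ (1 - η) →
            ‖ψ (r * (Complex.exp (θ * Complex.I) * ζ)) - c₀‖ ≤ 2 * Real.exp (-(τ * n)) := by
  have hdR : (2 : ℝ) ≤ d := by exact_mod_cast hd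
  have hd0 : (0 : ℝ) < d := by linarith
  have hlogd : 0 < Real.log d := Real.log_pos (by linarith)
  obtain ⟨τ₀, hτ₀0, hτ₀χ, HD⟩ := der_up hd hψ h
  refine ⟨τ₀, hτ₀0, hτ₀χ, ?_⟩
  intro τ hτ1 hτ2
  obtain ⟨γ, hγ0, n₁, hn₁⟩ := HD τ hτ1 hτ2
  obtain ⟨η, hη⟩ : ∃ η, η = min (1 / 2) (γ / (2 * Real.log d)) := ⟨_, rfl⟩
  have hη0 : 0 < η := by rw [hη]; positivity
  have hη1 : η ≤ 1 / 2 := by rw [hη]; exact min_le_left _ _
  have hηγ : η * Real.log d ≤ γ / 2 := by
    have h1 : η ≤ γ / (2 * Real.log d) := by rw [hη]; exact min_le_right _ _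
    calc η * Real.log d ≤ γ / (2 * Real.log d) * Real.log d := by gcongr
      _ = γ / 2 := by field_simp
  have hcast : Tendsto (fun n : ℕ => (n : ℝ)) atTop atTop := tendsto_natCast_atTop_atTop
  obtain ⟨n₂, hn₂⟩ := eventually_atTop.1 ((Real.tendsto_exp_atTop.comp
    (hcast.const_mul_atTop (half_pos hγ0))).eventually_ge_atTop (1000 * (d : ℝ)))
  refine ⟨η, hη0, by linarith, max n₁ n₂, ?_⟩
  intro n hn ζ hζ r hr0 hr1 hr2 hr5 hrc θ hθ
  have hn1 : n₁ ≤ n := le_of_max_le_left hn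
  have h1 := hn₂ n (le_of_max_le_right hn)
  simp only [Function.comp] at h1
  have hr : 1 < r := (lev_gt hd n).trans_le hr0
  obtain ⟨S, hS⟩ : ∃ S, S = 6 * ((d : ℝ) ^ n * Real.exp (-((τ + γ) * n))) := ⟨_, rfl⟩
  have hS0 : 0 < S := by rw [hS]; positivity
  -- the total variation
  have hlen : S * |θ| ≤ Real.exp (-(τ * n)) := by
    have h2 : (1 / (d : ℝ) ^ n) ^ (1 - η) * (d : ℝ) ^ n = Real.exp (η * Real.log d * n) := by
      rw [← exp_log_pow hd n, one_div, ← Real.exp_neg, ← Real.exp_mul, ← Real.exp_add]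
      congr 1
      ring
    calc S * |θ| ≤ S * (100 * d * (1 / (d : ℝ) ^ n) ^ (1 - η)) := by gcongr
      _ = 600 * d * ((1 / (d : ℝ) ^ n) ^ (1 - η) * (d : ℝ) ^ n) * Real.exp (-((τ + γ) * n)) := by
          rw [hS]
          ring
      _ = 600 * d * (Real.exp (η * Real.log d * n) * Real.exp (-((τ + γ) * n))) := by
          rw [h2]
          ring
      _ ≤ 600 * d * (Real.exp (-(γ / 2 * n)) * Real.exp (-(τ * n))) := by
          rw [← Real.exp_add, ← Real.exp_add]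
          apply mul_le_mul_of_nonneg_left _ (by positivity)
          apply Real.exp_le_exp.2
          have : η * Real.log d * n ≤ γ / 2 * n := by gcongr
          linarith
      _ = (600 * d * Real.exp (-(γ / 2 * n))) * Real.exp (-(τ * n)) := by ring
      _ ≤ 1 * Real.exp (-(τ * n)) := by
          gcongr
          rw [Real.exp_neg, ← div_eq_mul_inv, div_le_one (Real.exp_pos _)]
          linarith
      _ = _ := one_mul _
  -- the sign
  obtain ⟨σ, hσ1, hσ2⟩ : ∃ σ : ℝ, |σ| = 1 ∧ θ = σ * |θ| := by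
    rcases le_or_gt 0 θ with h0 | h0
    · exact ⟨1, abs_one, by rw [abs_of_nonneg h0, one_mul]⟩
    · exact ⟨-1, by rw [abs_neg, abs_one], by rw [abs_of_neg h0]; ring⟩
  have hpt : ∀ x : ℝ, ‖(r : ℂ) * (Complex.exp ((σ * x : ℝ) * Complex.I) * ζ)‖ = r := by
    intro x
    rw [norm_ray' (by linarith), norm_mul, Complex.norm_exp_ofReal_mul_I, hζ, one_mul, mul_one]
  have hder : ∀ x : ℝ, HasDerivAt
      (fun x : ℝ => ψ (r * (Complex.exp ((σ * x : ℝ) * Complex.I) * ζ)) - c₀)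
      (deriv ψ (r * (Complex.exp ((σ * x : ℝ) * Complex.I) * ζ)) *
        (r * (Complex.exp ((σ * x : ℝ) * Complex.I) * (σ * Complex.I) * ζ))) x := by
    intro x
    have h2 : HasDerivAt ψ (deriv ψ (r * (Complex.exp ((σ * x : ℝ) * Complex.I) * ζ)))
        (r * (Complex.exp ((σ * x : ℝ) * Complex.I) * ζ)) :=
      (hψ.diff.differentiableAt (isOpen_ext.mem_nhds (by
        show 1 < ‖(r : ℂ) * (Complex.exp ((σ * x : ℝ) * Complex.I) * ζ)‖
        rw [hpt]
        exact hr))).hasDerivAt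
    have h3 : HasDerivAt (fun x : ℝ => ((σ * x : ℝ) : ℂ) * Complex.I) (σ * Complex.I) x := by
      have h4 : HasDerivAt (fun x : ℝ => ((σ * x : ℝ) : ℂ)) (σ : ℂ) x := by
        have := ((hasDerivAt_id x).const_mul σ).ofReal_comp
        simpa using this
      exact h4.mul_const _
    have h4 : HasDerivAt (fun x : ℝ => (r : ℂ) * (Complex.exp ((σ * x : ℝ) * Complex.I) * ζ))
        (r * (Complex.exp ((σ * x : ℝ) * Complex.I) * (σ * Complex.I) * ζ)) x :=
      (h3.cexp.mul_const ζ).const_mul (r : ℂ)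
    exact (h2.comp x h4).sub_const c₀
  have hbar := image_norm_le_of_norm_deriv_right_lt_deriv_boundary' (a := 0) (b := |θ|)
    (f := fun x : ℝ => ψ (r * (Complex.exp ((σ * x : ℝ) * Complex.I) * ζ)) - c₀)
    (f' := fun x : ℝ => deriv ψ (r * (Complex.exp ((σ * x : ℝ) * Complex.I) * ζ)) *
        (r * (Complex.exp ((σ * x : ℝ) * Complex.I) * (σ * Complex.I) * ζ)))
    (fun x _ => (hder x).continuousAt.continuousWithinAt)
    (fun x _ => (hder x).hasDerivWithinAt)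
    (B := fun x => Real.exp (-(τ * n)) + S * x) (B' := fun _ => S)
    (by
      simp only [mul_zero, Complex.ofReal_zero, zero_mul, Complex.exp_zero, one_mul, add_zero]
      exact hrc)
    (by fun_prop)
    (by
      intro x _
      have h5 : HasDerivAt (fun x => Real.exp (-(τ * n)) + S * x) S x := by
        simpa using ((hasDerivAt_id x).const_mul S).const_add (Real.exp (-(τ * n)))
      exact h5.hasDerivWithinAt)
    (by
      intro x hx hxe
      have h5 : ‖ψ (r * (Complex.exp ((σ * x : ℝ) * Complex.I) * ζ)) - c₀‖ ≤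
          2 * Real.exp (-(τ * n)) := by
        rw [hxe]
        have : S * x ≤ S * |θ| := by
          gcongr
          exact hx.2.le
        linarith
      have h6 := hn₁ n hn1 (r * (Complex.exp ((σ * x : ℝ) * Complex.I) * ζ)) (by rw [hpt]; exact hr)
        (by rw [hpt]; exact hr1) (by rw [hpt]; exact hr2) h5
      have h7 : ‖(r : ℂ) * (Complex.exp ((σ * x : ℝ) * Complex.I) * (σ * Complex.I) * ζ)‖ = r := by
        rw [norm_ray' (by linarith), norm_mul, norm_mul, Complex.norm_exp_ofReal_mul_I, norm_mul,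
          Complex.norm_I, Complex.norm_real, Real.norm_eq_abs, hσ1, hζ]
        ring
      rw [norm_mul, h7, hS]
      have h8 : 0 < (d : ℝ) ^ n * Real.exp (-((τ + γ) * n)) := by positivity
      calc _ ≤ ((d : ℝ) ^ n * Real.exp (-((τ + γ) * n))) * 5 := by gcongr
        _ < _ := by linarith)
  have h2 := hbar ⟨abs_nonneg θ, le_rfl⟩
  have h3 : ψ (r * (Complex.exp (θ * Complex.I) * ζ)) - c₀ =
      ψ (r * (Complex.exp ((σ * |θ| : ℝ) * Complex.I) * ζ)) - c₀ := by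
    rw [← hσ2]
  rw [h3]
  refine h2.trans ?_
  show Real.exp (-(τ * n)) + S * |θ| ≤ _
  linarith

end Pool.Agent.H58AC
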