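import Pool.Agent.H58AC.I
import Mathlib.Analysis.Complex.Angle

set_option autoImplicit false

/-! # The distance to the connectedness locus, and the final statement -/

namespace Pool.Agent.H58AC

open Set Filter Metric MeasureTheory Topology
open Pool.Agent.Y298.CA (Lyap)
open Pool.Agent.H713R2 (IsExteriorMap exists_beta exteriorMap_unique differentiable_P)
open Pool.Agent.H712R2 (P P_succ P_one mem_multibrot_iff)
open Pool.Agent.Y736.HD (GS ev_small ev_lt ev_pos lim_exp)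
open N62a1eb23 (multibrotSet)

variable {d : ℕ} {ψ : ℂ → ℂ} {χ : ℝ} {c₀ : ℂ}

/-- near a point of the connectedness locus the critical orbit stays bounded for a long time -/
theorem stay (hd : 2 ≤ d) {q : ℂ} (hq : q ∈ multibrotSet d) {k N : ℕ} {δ C : ℝ}
    (hC1 : 1 ≤ C) (hC : ∀ p ∈ closedBall q δ, ∀ j ≤ k, ‖deriv (P d (j + 1)) p‖ ≤ C)
    (hδ : δ * (2 * C * La d 4 ^ N) ≤ 1) : ∀ i ≤ k + N, ∀ p ∈ closedBall q δ, ‖P d (i + 1) p‖ ≤ 3 := by
  obtain ⟨hL1, hL2⟩ := La_ge hd (R := 4) le_rfl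
  have hqb := (mem_multibrot_iff hd q).1 hq
  intro i
  induction i using Nat.strong_induction_on with
  | _ i ih =>
    intro hi p hp
    have hLN : 1 ≤ La d 4 ^ N := one_le_pow₀ (by linarith)
    have hder : ∀ x ∈ closedBall q δ, ‖deriv (P d (i + 1)) x‖ ≤ 2 * C * La d 4 ^ N := by
      intro x hx
      rcases le_or_gt i k with h1 | h1
      · have h2 := hC x hx i h1
        nlinarith
      · obtain ⟨j, hj⟩ : ∃ j, i = k + j := ⟨i - k, by omega⟩
        have hR : ∀ s < j, ‖P d (k + 1 + s) x‖ ≤ 4 := by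
          intro s hs
          have := ih (k + s) (by omega) (by omega) x hx
          rw [show k + 1 + s = k + s + 1 by omega]
          linarith
        have h2 := P_der_add hd (R := 4) le_rfl k j (p := x) hR
        have h3 : ‖deriv ((Pool.Agent.TH279.MD.f d x)^[j]) (P d (k + 1) x)‖ ≤ La d 4 ^ j :=
          der_le hd le_rfl (fun s hs => by
            rw [← P_add hd]
            linarith [hR s hs])
        have h4 := hC x hx k le_rfl
        have h5 : La d 4 ^ j ≤ La d 4 ^ N := pow_le_pow_right₀ (by linarith) (by omega)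
        have h6 : 0 ≤ La d 4 ^ j := by positivity
        have h7 := norm_sub_norm_le (deriv (P d (k + 1 + j)) x)
          (deriv ((Pool.Agent.TH279.MD.f d x)^[j]) (P d (k + 1) x) * deriv (P d (k + 1)) x)
        rw [norm_mul] at h7
        rw [show i + 1 = k + 1 + j by omega]
        have h8 : ‖deriv ((Pool.Agent.TH279.MD.f d x)^[j]) (P d (k + 1) x)‖ *
            ‖deriv (P d (k + 1)) x‖ ≤ La d 4 ^ j * C := by gcongr
        nlinarith
    have h1 := (convex_closedBall q δ).norm_image_sub_le_of_norm_deriv_le (𝕜 := ℂ)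
      (f := P d (i + 1)) (fun x _ => differentiable_P d (i + 1) x) hder
      (mem_closedBall_self (dist_nonneg.trans hp)) hp
    have h2 : ‖p - q‖ ≤ δ := by
      rw [← dist_eq_norm]
      exact hp
    have h3 : 2 * C * La d 4 ^ N * ‖p - q‖ ≤ 1 := by
      have : 0 ≤ 2 * C * La d 4 ^ N := by positivity
      calc 2 * C * La d 4 ^ N * ‖p - q‖ ≤ 2 * C * La d 4 ^ N * δ := by gcongr
        _ = δ * (2 * C * La d 4 ^ N) := by ring
        _ ≤ 1 := hδ
    have h4 := norm_add_le (P d (i + 1) p - P d (i + 1) q) (P d (i + 1) q)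
    rw [sub_add_cancel] at h4
    have h5 := hqb (i + 1)
    linarith

/-- **Lower bound of the distance to the connectedness locus.** -/
theorem dist_low (hd : 2 ≤ d) (hψ : IsExteriorMap (multibrotSet d) ψ) (h : Lyap d χ c₀) {ε' : ℝ}
    (hε' : 0 < ε') : ∃ τ₁ : ℝ, 0 < τ₁ ∧ τ₁ < χ ∧ ∀ τ : ℝ, τ₁ ≤ τ → τ < χ → ∃ n₀ : ℕ, ∀ n : ℕ, n₀ ≤ n →
      ∀ w : ℂ, 1 < ‖w‖ → 5 ≤ ‖w‖ ^ (d ^ n) → ‖ψ w - c₀‖ ≤ 2 * Real.exp (-(τ * n)) →
        ∀ q ∈ multibrotSet d, Real.exp (-((χ + ε') * n)) ≤ ‖ψ w - q‖ := by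
  have hχ : 0 < χ := h.1
  have hc2 : ‖c₀‖ ≤ 2 := by
    have := (mem_multibrot_iff hd c₀).1 h.2.1 1
    rwa [P_one hd] at this
  obtain ⟨hL1, hL2⟩ := La_ge hd (R := 4) le_rfl
  obtain ⟨L, hL⟩ : ∃ L, L = La d 4 := ⟨_, rfl⟩
  rw [← hL] at hL1 hL2
  have hL0 : 0 < L := by linarith
  have hlogL : 0 < Real.log L := Real.log_pos (by linarith)
  obtain ⟨ε, hε, hε1, hε2⟩ : ∃ ε : ℝ, 0 < ε ∧ ε ≤ ε' / 4 ∧ 3 * ε * Real.log L ≤ ε' * χ / 8 := by
    refine ⟨min (ε' / 4) (ε' * χ / (24 * Real.log L)), by positivity, min_le_left _ _, ?_⟩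
    have h1 : min (ε' / 4) (ε' * χ / (24 * Real.log L)) ≤ ε' * χ / (24 * Real.log L) :=
      min_le_right _ _
    calc 3 * min (ε' / 4) (ε' * χ / (24 * Real.log L)) * Real.log L
        ≤ 3 * (ε' * χ / (24 * Real.log L)) * Real.log L := by gcongr
      _ = ε' * χ / 8 := by
          field_simp
          norm_num
  obtain ⟨τ₁, hτ₁, hτ₁χ, hτ₁2⟩ : ∃ τ₁ : ℝ, 0 < τ₁ ∧ τ₁ < χ ∧ (χ - τ₁) * Real.log L ≤ ε' * χ / 8 := by
    refine ⟨max (χ / 2) (χ - ε' * χ / (8 * Real.log L)), lt_max_of_lt_left (by linarith), ?_, ?_⟩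
    · apply max_lt (by linarith)
      have : 0 < ε' * χ / (8 * Real.log L) := by positivity
      linarith
    · have h1 : χ - ε' * χ / (8 * Real.log L) ≤ max (χ / 2) (χ - ε' * χ / (8 * Real.log L)) :=
        le_max_right _ _
      calc (χ - max (χ / 2) (χ - ε' * χ / (8 * Real.log L))) * Real.log L
          ≤ (ε' * χ / (8 * Real.log L)) * Real.log L := by
            gcongr
            linarith
        _ = ε' * χ / 8 := by
            field_simp
  refine ⟨τ₁, hτ₁, hτ₁χ, ?_⟩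
  intro τ hτ1 hτ2
  have hτ0 : 0 < τ := hτ₁.trans_le hτ1
  obtain ⟨C, D, κ, K₀, hC, hD, hκ, HP⟩ := pass_par hd h hε
  have hE0 : 0 < χ + 3 * ε := by linarith
  obtain ⟨b, hb⟩ : ∃ b, b = Real.log (4 * D) := ⟨_, rfl⟩
  have hb0 : 0 ≤ b := by rw [hb]; exact Real.log_nonneg (by linarith)
  obtain ⟨X, hX⟩ : ∃ X : ℕ → ℝ, X = fun n : ℕ => (τ * n - b) / (χ + 3 * ε) := ⟨_, rfl⟩
  have hcast : Tendsto (fun n : ℕ => (n : ℝ)) atTop atTop := tendsto_natCast_atTop_atTop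
  have hXlim : Tendsto X atTop atTop := by
    rw [hX]
    apply Tendsto.atTop_div_const hE0
    exact tendsto_atTop_add_const_right _ _ (hcast.const_mul_atTop hτ0)
  have hsm : Tendsto (fun n : ℕ => 2 * Real.exp (-(τ * n))) atTop (nhds (2 * 0)) := by
    apply Tendsto.const_mul
    apply Real.tendsto_exp_neg_atTop_nhds_zero.comp
    exact hcast.const_mul_atTop hτ0
  rw [mul_zero] at hsm
  have hlin : Tendsto (fun n : ℕ => ε' / 2 * (n : ℝ)) atTop atTop :=
    hcast.const_mul_atTop (by positivity)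
  obtain ⟨n₀, hn₀⟩ := eventually_atTop.1 ((hXlim.eventually_ge_atTop 0).and
    ((hsm.eventually (ge_mem_nhds one_pos)).and (hlin.eventually_ge_atTop
      (Real.log (2 * C) + (b / (χ + 3 * ε) + 1) * Real.log L))))
  refine ⟨n₀, ?_⟩
  intro n hn w hw1 hwl hwc q hq
  obtain ⟨h1, h2, h3⟩ := hn₀ n hn
  by_contra hcon
  push Not at hcon
  obtain ⟨δ, hδ⟩ : ∃ δ, δ = ‖ψ w - q‖ := ⟨_, rfl⟩
  rw [← hδ] at hcon
  have hδ0 : 0 ≤ δ := by rw [hδ]; exact norm_nonneg _
  have hn0 : (0 : ℝ) ≤ n := Nat.cast_nonneg _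
  have hδτ : δ ≤ Real.exp (-(τ * n)) := by
    refine hcon.le.trans ?_
    apply Real.exp_le_exp.2
    nlinarith
  obtain ⟨k, hk⟩ : ∃ k, k = ⌊X n⌋₊ := ⟨_, rfl⟩
  have hkX : (k : ℝ) ≤ X n := by rw [hk]; exact Nat.floor_le h1
  have hXk : X n < k + 1 := by rw [hk]; exact Nat.lt_floor_add_one _
  have hXdef : X n * (χ + 3 * ε) = τ * n - b := by
    rw [hX]
    field_simp
  have hkn : (k : ℝ) ≤ n := by
    have h5 : X n ≤ n := by
      have : X n * (χ + 3 * ε) ≤ n * (χ + 3 * ε) := by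
        rw [hXdef]
        nlinarith
      exact le_of_mul_le_mul_right this hE0
    linarith
  have hkn' : k ≤ n := by exact_mod_cast hkn
  obtain ⟨N, hN⟩ : ∃ N, n = k + N := ⟨n - k, by omega⟩
  have hNR : (N : ℝ) = n - k := by
    rw [hN]
    push_cast
    ring
  have hdisc : 4 * Real.exp (-(τ * n)) ≤ Real.exp (-((χ + 3 * ε) * k)) / D := by
    rw [le_div_iff₀ (by linarith)]
    have e1 : 4 * D = Real.exp b := by rw [hb, Real.exp_log (by linarith)]
    calc 4 * Real.exp (-(τ * n)) * D = Real.exp b * Real.exp (-(τ * n)) := by rw [← e1]; ring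
      _ = Real.exp (b + -(τ * n)) := by rw [Real.exp_add]
      _ ≤ _ := by
          apply Real.exp_le_exp.2
          nlinarith
  have hball : ∀ p ∈ closedBall q δ, ∀ j ≤ k, ‖deriv (P d (j + 1)) p‖ ≤
      C * Real.exp ((χ + ε) * k) := by
    intro p hp j hj
    rw [mem_closedBall, dist_eq_norm] at hp
    refine (HP k p ?_).2 j hj
    refine le_trans ?_ hdisc
    have h5 : p - c₀ = (p - q) + (-(ψ w - q)) + (ψ w - c₀) := by ring
    rw [h5]
    refine (norm_add_le _ _).trans ?_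
    have h6 := norm_add_le (p - q) (-(ψ w - q))
    rw [norm_neg, ← hδ] at h6
    linarith
  -- the exponents
  have hexp : (χ + ε) * k + N * Real.log L + Real.log (2 * C) ≤ (χ + ε') * n := by
    have h5 : (N : ℝ) ≤ n * ((χ + 3 * ε - τ) / (χ + 3 * ε)) + (b / (χ + 3 * ε) + 1) := by
      have h6 : n * ((χ + 3 * ε - τ) / (χ + 3 * ε)) + (b / (χ + 3 * ε) + 1) = n - X n + 1 := by
        rw [hX]
        field_simp
        ring
      rw [h6, hNR]
      linarith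
    have h6 : (χ + 3 * ε - τ) / (χ + 3 * ε) * Real.log L ≤ ε' / 4 := by
      rw [div_mul_eq_mul_div, div_le_iff₀ hE0]
      have h7 : (χ - τ) * Real.log L ≤ (χ - τ₁) * Real.log L := by
        gcongr
      have h8 : ε' / 4 * (χ + 3 * ε) = ε' * χ / 4 + ε' * (3 * ε) / 4 := by ring
      have h9 : 0 < ε' * (3 * ε) / 4 := by positivity
      linarith
    have h7 : N * Real.log L ≤ n * (ε' / 4) + (b / (χ + 3 * ε) + 1) * Real.log L := by
      calc N * Real.log L ≤ (n * ((χ + 3 * ε - τ) / (χ + 3 * ε)) + (b / (χ + 3 * ε) + 1)) *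
            Real.log L := by gcongr
        _ = n * ((χ + 3 * ε - τ) / (χ + 3 * ε) * Real.log L) + (b / (χ + 3 * ε) + 1) *
            Real.log L := by ring
        _ ≤ _ := by gcongr
    have h8 : (χ + ε) * k ≤ (χ + ε' / 4) * n := by
      have : (0 : ℝ) ≤ k := Nat.cast_nonneg _
      calc (χ + ε) * k ≤ (χ + ε' / 4) * k := by gcongr
        _ ≤ _ := by gcongr
    linarith
  have hsmall : δ * (2 * (C * Real.exp ((χ + ε) * k)) * La d 4 ^ N) ≤ 1 := by
    rw [← hL]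
    have h5 : 2 * (C * Real.exp ((χ + ε) * k)) * L ^ N =
        Real.exp ((χ + ε) * k + N * Real.log L + Real.log (2 * C)) := by
      rw [Real.exp_add, Real.exp_add, Real.exp_log (by linarith), Real.exp_nat_mul,
        Real.exp_log hL0]
      ring
    rw [h5]
    calc δ * Real.exp ((χ + ε) * k + N * Real.log L + Real.log (2 * C))
        ≤ Real.exp (-((χ + ε') * n)) * Real.exp ((χ + ε') * n) := by
          apply mul_le_mul hcon.le (Real.exp_le_exp.2 hexp) (Real.exp_pos _).le (Real.exp_pos _).le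
      _ = 1 := by
          rw [← Real.exp_add]
          simp
  have hC' : 1 ≤ C * Real.exp ((χ + ε) * k) := by
    have : 1 ≤ Real.exp ((χ + ε) * k) := Real.one_le_exp (by positivity)
    nlinarith
  have h5 := stay hd hq hC' hball hsmall n (by omega) (ψ w) (by
    rw [mem_closedBall, dist_eq_norm, hδ])
  have h7 : ‖ψ w‖ ≤ 3 := by
    have h8 := norm_add_le (ψ w - c₀) c₀
    rw [sub_add_cancel] at h8
    linarith
  have h8 := lt_P_ext hd hψ (m := n) hw1 hwl h7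
  linarith

/-- **Access to the parameters with a positive Lyapunov exponent.** -/
theorem access (hd : 2 ≤ d) (hψ : IsExteriorMap (multibrotSet d) ψ) (h : Lyap d χ c₀) :
    ∃ ζ : ℂ, ‖ζ‖ = 1 ∧ ∀ ε : ℝ, 0 < ε → ∃ η t₀ : ℝ, 0 < η ∧ 0 < t₀ ∧ ∀ w : ℂ, 1 < ‖w‖ →
      ‖w‖ < 1 + t₀ → ‖w - ζ‖ ≤ (‖w‖ - 1) ^ (1 - η) →
        (‖w‖ - 1) ^ (χ / Real.log d + ε) ≤ infDist (ψ w) (multibrotSet d) ∧
          ‖ψ w - c₀‖ ≤ (‖w‖ - 1) ^ (χ / Real.log d - ε) := by
  have hd1 : (1 : ℝ) < d := by exact_mod_cast (by omega : 1 < d)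
  have hd0 : (0 : ℝ) < d := by linarith
  have hlogd : 0 < Real.log d := Real.log_pos hd1
  have hχ : 0 < χ := h.1
  obtain ⟨ζ, hζ, HR⟩ := exists_ray hd hψ h
  refine ⟨ζ, hζ, ?_⟩
  intro ε hε
  obtain ⟨τ₀, hτ₀0, hτ₀χ, HS⟩ := sideways hd hψ h
  obtain ⟨τ₁, hτ₁0, hτ₁χ, HL⟩ := dist_low hd hψ h (ε' := ε / 2 * Real.log d) (by positivity)
  obtain ⟨τ, hτ1, hτ2, hτ3, hτ4⟩ : ∃ τ, τ₀ < τ ∧ τ₁ ≤ τ ∧ χ / Real.log d - ε / 2 ≤ τ / Real.log d ∧
      τ < χ := by
    refine ⟨(max (max τ₀ τ₁) (χ - ε / 2 * Real.log d) + χ) / 2, ?_, ?_, ?_, ?_⟩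
    all_goals
      have a1 : τ₀ ≤ max (max τ₀ τ₁) (χ - ε / 2 * Real.log d) :=
        (le_max_left _ _).trans (le_max_left _ _)
      have a2 : τ₁ ≤ max (max τ₀ τ₁) (χ - ε / 2 * Real.log d) :=
        (le_max_right _ _).trans (le_max_left _ _)
      have a3 : χ - ε / 2 * Real.log d ≤ max (max τ₀ τ₁) (χ - ε / 2 * Real.log d) :=
        le_max_right _ _
      have a4 : max (max τ₀ τ₁) (χ - ε / 2 * Real.log d) < χ := by
        refine max_lt (max_lt hτ₀χ hτ₁χ) ?_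
        have : 0 < ε / 2 * Real.log d := by positivity
        linarith
    · linarith
    · linarith
    · rw [sub_le_iff_le_add, div_le_iff₀ hlogd, add_mul, div_mul_cancel₀ _ hlogd.ne']
      linarith
    · linarith
  obtain ⟨η, hη0, hη1, n₁, hn₁⟩ := HS τ hτ1 hτ4
  obtain ⟨n₂, hn₂⟩ := HL τ hτ2 hτ4
  have hτ0 : 0 < τ := hτ₀0.trans hτ1
  obtain ⟨m₀, hm₀⟩ := HR ((τ + χ) / 2) (by linarith)
  have hcast : Tendsto (fun n : ℕ => (n : ℝ)) atTop atTop := tendsto_natCast_atTop_atTop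
  obtain ⟨m₁, hm₁⟩ := eventually_atTop.1 ((hcast.const_mul_atTop
    (show 0 < (χ - τ) / 2 by linarith)).eventually_ge_atTop τ)
  obtain ⟨M, hM⟩ : ∃ M : ℕ, M = max (max n₁ n₂) (max m₀ m₁) := ⟨_, rfl⟩
  obtain ⟨a, ha⟩ : ∃ a, a = χ / Real.log d := ⟨_, rfl⟩
  have ha0 : 0 < a := by rw [ha]; positivity
  rw [← ha] at hτ3 ⊢
  have hev : ∀ᶠ t : ℝ in 𝓝[>] 0, t < 1 ∧ (∀ j : ℕ, 1 / (d : ℝ) ^ j ≤ d * t → M ≤ j) ∧
      2 * t ^ (ε / 2) ≤ 1 ∧ (10 * (d : ℝ)) ^ (a + ε / 2) * t ^ (ε / 2) ≤ 1 := by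
    filter_upwards [ev_lt one_pos, lev_large hd M, ev_small (C := 2) (half_pos hε),
      ev_small (C := (10 * (d : ℝ)) ^ (a + ε / 2)) (half_pos hε)] with t h1 h2 h3 h4
    exact ⟨h1, h2, h3, h4⟩
  rw [eventually_nhdsWithin_iff, Metric.eventually_nhds_iff] at hev
  obtain ⟨t₀, ht₀, H⟩ := hev
  refine ⟨η, t₀, hη0, ht₀, ?_⟩
  intro w hw1 hw2 hwζ
  obtain ⟨t, ht⟩ : ∃ t, t = ‖w‖ - 1 := ⟨_, rfl⟩
  have ht0 : 0 < t := by rw [ht]; linarith
  obtain ⟨ht1, hlarge, hsm1, hsm2⟩ := H (y := t) (by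
    rw [Real.dist_eq, sub_zero, abs_of_pos ht0]
    linarith) ht0
  rw [← ht] at hwζ ⊢
  obtain ⟨j, h1, h2, h3, h4⟩ := lev_near hd ht0 ht1.le
  have hMj := hlarge j h3
  have hj1 : n₁ ≤ j := (le_max_left _ _).trans ((le_max_left _ _).trans (hM ▸ hMj))
  have hj2 : n₂ ≤ j := (le_max_right _ _).trans ((le_max_left _ _).trans (hM ▸ hMj))
  have hj3 : m₀ ≤ j := (le_max_left _ _).trans ((le_max_right _ _).trans (hM ▸ hMj))
  have hj4 : m₁ ≤ j := (le_max_right _ _).trans ((le_max_right _ _).trans (hM ▸ hMj))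
  obtain ⟨r, hr⟩ : ∃ r, r = ‖w‖ := ⟨_, rfl⟩
  have hrt : r = 1 + t := by rw [hr, ht]; ring
  rw [← hrt] at h1 h2
  have hr1 : 1 < r := by rw [hrt]; linarith
  have hr0 : 0 < r := by linarith
  obtain ⟨n, hn⟩ : ∃ n, n = j + 1 := ⟨_, rfl⟩
  rw [← hn] at h1
  have hdn : 1 / (d : ℝ) ^ n ≤ t := by
    rw [hn, pow_succ, div_le_iff₀ (by positivity)]
    rw [div_le_iff₀ (by positivity)] at h3
    linarith
  have hdn2 : t ≤ 10 * d * (1 / (d : ℝ) ^ n) := by
    refine h4.trans (le_of_eq ?_)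
    rw [hn, pow_succ]
    field_simp
  have hpow1 : 5 ≤ r ^ (d ^ n) := by
    rw [← lev_pow hd n]
    exact pow_le_pow_left₀ (by linarith [lev_gt hd n]) h1 _
  have hpow2 : r ^ (d ^ n) ≤ 5 ^ d := by
    have h6 : r ^ (d ^ n) ≤ lev d j ^ (d ^ n) := pow_le_pow_left₀ (by linarith) h2 _
    rw [hn, pow_succ d j, pow_mul (lev d j), lev_pow hd j] at h6
    rw [hn, pow_succ d j]
    exact h6
  -- on the ray
  have hray : ‖ψ (r * ζ) - c₀‖ ≤ Real.exp (-(τ * n)) := by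
    refine (hm₀ j hj3 r (by rw [← hn]; exact h1) h2).trans ?_
    apply Real.exp_le_exp.2
    have h5 := hm₁ j hj4
    rw [hn]
    push_cast
    linarith
  -- the angle
  obtain ⟨z, hz⟩ : ∃ z : ℂ, z = w / (r * ζ) := ⟨_, rfl⟩
  have hζ0 : ζ ≠ 0 := by
    rintro rfl
    rw [norm_zero] at hζ
    linarith
  have hrc : (r : ℂ) ≠ 0 := Complex.ofReal_ne_zero.2 hr0.ne'
  have hz1 : ‖z‖ = 1 := by
    rw [hz, norm_div, norm_ray hζ hr0.le, ← hr, div_self hr0.ne']
  have hzθ : Complex.exp ((z.arg : ℝ) * Complex.I) = z := by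
    have := Complex.norm_mul_exp_arg_mul_I z
    rwa [hz1, Complex.ofReal_one, one_mul] at this
  have hwz : w = r * (Complex.exp ((z.arg : ℝ) * Complex.I) * ζ) := by
    rw [hzθ, hz]
    field_simp
  have hang : |z.arg| ≤ 100 * d * (1 / (d : ℝ) ^ n) ^ (1 - η) := by
    have h5 := (Complex.norm_sub_mem_Icc_angle (x := z) (y := 1) hz1 norm_one).1
    rw [Complex.angle_eq_abs_arg (by rw [← norm_pos_iff, hz1]; exact one_pos) one_ne_zero,
      div_one] at h5
    have h6 : ‖z - 1‖ ≤ 2 * t ^ (1 - η) := by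
      have h7 : z - 1 = (w / r - ζ) / ζ := by
        rw [hz]
        field_simp
      rw [h7, norm_div, hζ, div_one]
      have h8 : w / r - ζ = (w - ζ) - w * (1 - 1 / r) := by
        field_simp
        ring
      rw [h8]
      have h9 : ‖w * (1 - 1 / (r : ℂ))‖ = t := by
        rw [norm_mul, ← hr]
        have h10 : (1 - 1 / (r : ℂ)) = ((1 - 1 / r : ℝ) : ℂ) := by push_cast; ring
        rw [h10, Complex.norm_real, Real.norm_eq_abs, abs_of_nonneg (by
          rw [sub_nonneg, div_le_one hr0]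
          exact hr1.le)]
        rw [hrt]
        field_simp
        ring
      have h11 := norm_sub_le (w - ζ) (w * (1 - 1 / (r : ℂ)))
      rw [h9] at h11
      have h12 : t ≤ t ^ (1 - η) := by
        calc t = t ^ (1 : ℝ) := (Real.rpow_one t).symm
          _ ≤ t ^ (1 - η) := Real.rpow_le_rpow_of_exponent_ge ht0 ht1.le (by linarith)
      linarith
    have h7 : t ^ (1 - η) ≤ 10 * d * (1 / (d : ℝ) ^ n) ^ (1 - η) := by
      calc t ^ (1 - η) ≤ (10 * d * (1 / (d : ℝ) ^ n)) ^ (1 - η) :=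
            Real.rpow_le_rpow ht0.le hdn2 (by linarith)
        _ = (10 * d) ^ (1 - η) * (1 / (d : ℝ) ^ n) ^ (1 - η) :=
            Real.mul_rpow (by positivity) (by positivity)
        _ ≤ (10 * d) ^ (1 : ℝ) * (1 / (d : ℝ) ^ n) ^ (1 - η) := by
            have : (10 * (d : ℝ)) ^ (1 - η) ≤ (10 * d) ^ (1 : ℝ) :=
              Real.rpow_le_rpow_of_exponent_le (by linarith) (by linarith)
            gcongr
        _ = _ := by rw [Real.rpow_one]
    have hpi := Real.pi_pos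
    have hpi4 := Real.pi_le_four
    rw [div_mul_eq_mul_div, div_le_iff₀ hpi] at h5
    have h8 : 0 ≤ 10 * d * (1 / (d : ℝ) ^ n) ^ (1 - η) := by positivity
    have h9 : ‖z - 1‖ * Real.pi ≤ (2 * (10 * d * (1 / (d : ℝ) ^ n) ^ (1 - η))) * 4 := by
      have h10 : ‖z - 1‖ ≤ 2 * (10 * d * (1 / (d : ℝ) ^ n) ^ (1 - η)) := by linarith
      gcongr
    linarith
  have hn1 : n₁ ≤ n := by omega
  have hn2 : n₂ ≤ n := by omega
  have hside := hn₁ n hn1 ζ hζ r h1 hpow1 hpow2 (by rw [hrt]; linarith) hray z.arg hang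
  rw [← hwz] at hside
  have hdist := hn₂ n hn2 w hw1 (by rw [← hr]; exact hpow1) hside
  constructor
  · rw [Metric.le_infDist ⟨c₀, h.2.1⟩]
    intro q hq
    rw [dist_eq_norm]
    refine le_trans ?_ (hdist q hq)
    rw [exp_pow hd]
    have e1 : (χ + ε / 2 * Real.log d) / Real.log d = a + ε / 2 := by
      rw [add_div, mul_div_assoc, div_self hlogd.ne', mul_one, ha]
    rw [e1]
    have h5 : t ^ (a + ε / 2) ≤ (10 * d) ^ (a + ε / 2) * (1 / (d : ℝ) ^ n) ^ (a + ε / 2) := by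
      rw [← Real.mul_rpow (by positivity) (by positivity)]
      exact Real.rpow_le_rpow ht0.le hdn2 (by positivity)
    calc t ^ (a + ε) = t ^ (ε / 2) * t ^ (a + ε / 2) := by
          rw [← Real.rpow_add ht0]
          congr 1
          ring
      _ ≤ t ^ (ε / 2) * ((10 * d) ^ (a + ε / 2) * (1 / (d : ℝ) ^ n) ^ (a + ε / 2)) := by gcongr
      _ = ((10 * d) ^ (a + ε / 2) * t ^ (ε / 2)) * (1 / (d : ℝ) ^ n) ^ (a + ε / 2) := by ring
      _ ≤ 1 * (1 / (d : ℝ) ^ n) ^ (a + ε / 2) := by gcongr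
      _ = _ := one_mul _
  · refine hside.trans ?_
    rw [exp_pow hd]
    have h5 : (1 / (d : ℝ) ^ n) ^ (τ / Real.log d) ≤ t ^ (τ / Real.log d) :=
      Real.rpow_le_rpow (by positivity) hdn (by positivity)
    have h6 : t ^ (τ / Real.log d) ≤ t ^ (a - ε / 2) :=
      Real.rpow_le_rpow_of_exponent_ge ht0 ht1.le hτ3
    calc 2 * (1 / (d : ℝ) ^ n) ^ (τ / Real.log d) ≤ 2 * t ^ (a - ε / 2) := by
          have := h5.trans h6
          gcongr
      _ = (2 * t ^ (ε / 2)) * t ^ (a - ε) := by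
          rw [mul_assoc, ← Real.rpow_add ht0]
          congr 2
          ring
      _ ≤ 1 * t ^ (a - ε) := by gcongr
      _ = _ := one_mul _

end Pool.Agent.H58AC
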